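import Pool.Agent.U108.DT.K

set_option autoImplicit false

/-! Mean values of Dirichlet polynomials supported on the numbers below `b ^ k` with restricted digits. -/

namespace Pool.Agent.U108.DT.AS

open Finset
open Pool.Agent.TH705.DL (ph ph_norm Sep)
open Pool.Agent.TH872.GQ (S)

lemma low_digit (b l d x i : ℕ) (hb : 2 ≤ b) (hi : i < l) : (d * b ^ l + x) / b ^ i % b = x / b ^ i % b := by
  have hb0 : 0 < b ^ i := by positivity
  obtain ⟨s, rfl⟩ : ∃ s, l = i + 1 + s := ⟨l - (i + 1), by omega⟩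
  have e : d * b ^ (i + 1 + s) + x = x + b ^ i * (b * (d * b ^ s)) := by
    rw [pow_add, pow_add, pow_one]
    ring
  rw [e, Nat.add_mul_div_left _ _ hb0, Nat.add_mul_mod_self_left]

lemma cell_mem (b k : ℕ) (hb : 2 ≤ b) (G : ℕ → Finset ℕ) (l d x : ℕ) (hl : l < k) (hd0 : d < b)
    (hd : d ∈ G l) (h0 : ∀ i, l < i → i < k → 0 ∈ G i) (hx : x ∈ S b G l) : d * b ^ l + x ∈ S b G k := by
  unfold S at hx ⊢
  rw [mem_filter, mem_range] at hx ⊢
  have hbl : 0 < b ^ l := by positivity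
  have h1 : d * b ^ l + x < b ^ (l + 1) := by
    have h2 : (d + 1) * b ^ l ≤ b * b ^ l := Nat.mul_le_mul_right _ (by omega)
    rw [pow_succ, mul_comm (b ^ l) b]
    have h3 : (d + 1) * b ^ l = d * b ^ l + b ^ l := by ring
    omega
  have h2 : b ^ (l + 1) ≤ b ^ k := Nat.pow_le_pow_right (by omega) (by omega)
  refine ⟨by omega, ?_⟩
  intro i hi
  rcases lt_trichotomy i l with h | h | h
  · rw [low_digit b l d x i hb h]
    exact hx.2 i h
  · rw [h, show d * b ^ l + x = x + b ^ l * d by ring, Nat.add_mul_div_left _ _ hbl, Nat.div_eq_of_lt hx.1, zero_add,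
      Nat.mod_eq_of_lt hd0]
    exact hd
  · have h3 : b ^ (l + 1) ≤ b ^ i := Nat.pow_le_pow_right (by omega) (by omega)
    rw [Nat.div_eq_of_lt (by omega), Nat.zero_mod]
    exact h0 i h hi

open Classical in
/-- the cells -/
noncomputable def Jc (b k : ℕ) (G : ℕ → Finset ℕ) : Finset ℕ :=
  (range (k * b)).filter (fun j => k / 2 ≤ j / b ∧ j % b ≠ 0 ∧ j % b ∈ G (j / b) ∧ ∀ i, j / b < i → i < k → 0 ∈ G i)

lemma mem_Jc {b k : ℕ} (hb : 2 ≤ b) {G : ℕ → Finset ℕ} {j : ℕ} (hj : j ∈ Jc b k G) :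
    j / b < k ∧ k / 2 ≤ j / b ∧ j % b ≠ 0 ∧ j % b < b ∧ j % b ∈ G (j / b) ∧ ∀ i, j / b < i → i < k → 0 ∈ G i := by
  classical
  unfold Jc at hj
  obtain ⟨h1, h2⟩ := mem_filter.1 hj
  rw [mem_range] at h1
  exact ⟨(Nat.div_lt_iff_lt_mul (by omega)).2 h1, h2.1, h2.2.1, Nat.mod_lt _ (by omega), h2.2.2⟩

lemma lt_succ_pow (b l d x : ℕ) (hd : d < b) (hx : x < b ^ l) : d * b ^ l + x < b ^ (l + 1) := by
  have h2 : (d + 1) * b ^ l ≤ b * b ^ l := Nat.mul_le_mul_right _ (by omega)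
  rw [pow_succ, mul_comm (b ^ l) b]
  have h3 : (d + 1) * b ^ l = d * b ^ l + b ^ l := by ring
  omega

lemma sum_le (b k : ℕ) (hb : 2 ≤ b) (G : ℕ → Finset ℕ) : ∑ j ∈ Jc b k G, (S b G (j / b)).card ≤ (S b G k).card := by
  rw [← card_sigma]
  apply card_le_card_of_injOn (fun p : (_ : ℕ) × ℕ => (p.1 % b) * b ^ (p.1 / b) + p.2)
  · intro p hp
    have hp' := mem_sigma.1 (mem_coe.1 hp)
    obtain ⟨h1, h2, h3, h4, h5, h6⟩ := mem_Jc hb hp'.1
    exact mem_coe.2 (cell_mem b k hb G (p.1 / b) (p.1 % b) p.2 h1 h4 h5 h6 hp'.2)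
  · intro p hp q hq hpq
    have hp' := mem_sigma.1 (mem_coe.1 hp)
    have hq' := mem_sigma.1 (mem_coe.1 hq)
    obtain ⟨_, _, hp3, hp4, _, _⟩ := mem_Jc hb hp'.1
    obtain ⟨_, _, hq3, hq4, _, _⟩ := mem_Jc hb hq'.1
    have hpx : p.2 < b ^ (p.1 / b) := by
      have := hp'.2
      unfold S at this
      rw [mem_filter, mem_range] at this
      exact this.1
    have hqx : q.2 < b ^ (q.1 / b) := by
      have := hq'.2
      unfold S at this
      rw [mem_filter, mem_range] at this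
      exact this.1
    have e : (p.1 % b) * b ^ (p.1 / b) + p.2 = (q.1 % b) * b ^ (q.1 / b) + q.2 := hpq
    have hp5 := lt_succ_pow b (p.1 / b) (p.1 % b) p.2 hp4 hpx
    have hq5 := lt_succ_pow b (q.1 / b) (q.1 % b) q.2 hq4 hqx
    have hp6 : b ^ (p.1 / b) ≤ (p.1 % b) * b ^ (p.1 / b) := Nat.le_mul_of_pos_left _ (by omega)
    have hq6 : b ^ (q.1 / b) ≤ (q.1 % b) * b ^ (q.1 / b) := Nat.le_mul_of_pos_left _ (by omega)
    have hl : p.1 / b = q.1 / b := by
      rcases lt_trichotomy (p.1 / b) (q.1 / b) with h | h | h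
      · have : b ^ (p.1 / b + 1) ≤ b ^ (q.1 / b) := Nat.pow_le_pow_right (by omega) h
        omega
      · exact h
      · have : b ^ (q.1 / b + 1) ≤ b ^ (p.1 / b) := Nat.pow_le_pow_right (by omega) h
        omega
    rw [hl] at e hpx
    have hbq : 0 < b ^ (q.1 / b) := by positivity
    have hd : p.1 % b = q.1 % b := by
      have e1 : ((p.1 % b) * b ^ (q.1 / b) + p.2) / b ^ (q.1 / b) = p.1 % b := by
        rw [show (p.1 % b) * b ^ (q.1 / b) + p.2 = p.2 + b ^ (q.1 / b) * (p.1 % b) by ring, Nat.add_mul_div_left _ _ hbq,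
          Nat.div_eq_of_lt hpx, zero_add]
      have e2 : ((q.1 % b) * b ^ (q.1 / b) + q.2) / b ^ (q.1 / b) = q.1 % b := by
        rw [show (q.1 % b) * b ^ (q.1 / b) + q.2 = q.2 + b ^ (q.1 / b) * (q.1 % b) by ring, Nat.add_mul_div_left _ _ hbq,
          Nat.div_eq_of_lt hqx, zero_add]
      rw [← e1, ← e2, e]
    rw [hd] at e
    have h1 : p.1 = q.1 := by
      rw [← Nat.div_add_mod p.1 b, ← Nat.div_add_mod q.1 b, hl, hd]
    have h2 : p.2 = q.2 := by omega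
    exact Sigma.ext h1 (heq_of_eq h2)

lemma covered (b k : ℕ) (hb : 2 ≤ b) (G : ℕ → Finset ℕ) (n : ℕ) (hn : n ∈ S b G k) (hn1 : b ^ (k / 2) ≤ n) :
    ∃ j ∈ Jc b k G, ∃ x ∈ S b G (j / b), n = (j % b) * b ^ (j / b) + 1 * x := by
  classical
  unfold S at hn
  rw [mem_filter, mem_range] at hn
  obtain ⟨hnk, hdig⟩ := hn
  have hn0 : n ≠ 0 := by
    have : 0 < b ^ (k / 2) := by positivity
    omega
  obtain ⟨l, hl⟩ : ∃ l, l = Nat.log b n := ⟨_, rfl⟩
  have h1 : b ^ l ≤ n := by rw [hl]; exact Nat.pow_log_le_self b hn0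
  have h2 : n < b ^ (l + 1) := by rw [hl]; exact Nat.lt_pow_succ_log_self (by omega) n
  have h3 : k / 2 ≤ l := by
    have : b ^ (k / 2) < b ^ (l + 1) := by omega
    have := (Nat.pow_lt_pow_iff_right (by omega : 1 < b)).1 this
    omega
  have h4 : l < k := by
    have : b ^ l < b ^ k := by omega
    exact (Nat.pow_lt_pow_iff_right (by omega : 1 < b)).1 this
  have hbl : 0 < b ^ l := by positivity
  obtain ⟨d, hd⟩ : ∃ d, d = n / b ^ l := ⟨_, rfl⟩
  obtain ⟨x, hx⟩ : ∃ x, x = n % b ^ l := ⟨_, rfl⟩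
  have hdx : n = d * b ^ l + x := by
    rw [hd, hx, mul_comm]
    exact (Nat.div_add_mod n (b ^ l)).symm
  have hxl : x < b ^ l := by rw [hx]; exact Nat.mod_lt _ hbl
  have hdb : d < b := by
    rw [hd, Nat.div_lt_iff_lt_mul hbl]
    calc n < b ^ (l + 1) := h2
      _ = b * b ^ l := by rw [pow_succ]; ring
  have hd1 : 1 ≤ d := by
    rw [hd]
    exact (Nat.one_le_div_iff hbl).2 h1
  have hdiv : (l * b + d) / b = l := by
    rw [show l * b + d = d + b * l by ring, Nat.add_mul_div_left _ _ (by omega), Nat.div_eq_of_lt hdb, zero_add]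
  have hmod : (l * b + d) % b = d := by
    rw [show l * b + d = d + b * l by ring, Nat.add_mul_mod_self_left, Nat.mod_eq_of_lt hdb]
  refine ⟨l * b + d, ?_, x, ?_, ?_⟩
  · unfold Jc
    refine mem_filter.2 ⟨mem_range.2 ?_, ?_⟩
    rotate_left
    · rw [hdiv, hmod]
      refine ⟨h3, by omega, ?_, ?_⟩
      · have h5 := hdig l h4
        rw [← hd, Nat.mod_eq_of_lt hdb] at h5
        exact h5
      · intro i hi hik
        have h5 := hdig i hik
        have h6 : b ^ (l + 1) ≤ b ^ i := Nat.pow_le_pow_right (by omega) hi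
        rw [Nat.div_eq_of_lt (by omega), Nat.zero_mod] at h5
        exact h5
    · have : (l + 1) * b ≤ k * b := Nat.mul_le_mul_right _ h4
      have e : (l + 1) * b = l * b + b := by ring
      omega
  · rw [hdiv]
    unfold S
    rw [mem_filter, mem_range]
    refine ⟨hxl, fun i hi => ?_⟩
    have h5 := hdig i (by omega)
    rw [hdx, low_digit b l d x i hb hi] at h5
    exact h5
  · rw [hdiv, hmod, one_mul]
    exact hdx

/-- **The mean value for the numbers below `b ^ k` with restricted digits.** -/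
theorem digitCor (b : ℕ) (hb : 2 ≤ b) (A' : ℕ) :
    ∃ c C : ℝ, 0 < c ∧ 1 ≤ C ∧ ∀ (k : ℕ) (G : ℕ → Finset ℕ) (T : ℝ), 2 ≤ k →
      (∀ i < k, G i ⊆ range b ∧ 2 ≤ (G i).card) → ((S b G k).card : ℝ) ≤ ((b ^ k : ℕ) : ℝ) ^ (1 / 2 + c) →
      T ≤ ((b ^ k : ℕ) : ℝ) ^ A' → ∀ (x : ℝ) (W : Finset ℝ) (a : ℕ → ℂ),
      Sep W → (∀ t ∈ W, x ≤ t ∧ t ≤ x + T) → (∀ n ∈ Icc 1 (b ^ k), a n ≠ 0 → n ∈ S b G k) →
      (∀ n, ‖a n‖ ≤ 1) →
        ∑ t ∈ W, ‖∑ n ∈ Icc 1 (b ^ k), a n * ph t n‖ ^ 2 ≤ C * (((b ^ k : ℕ) : ℝ) + W.card) * (b ^ k : ℕ) := by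
  have hb0 : (0 : ℝ) < b := by exact_mod_cast (by omega : 0 < b)
  obtain ⟨c, C, hc, hC, h⟩ := digitN b hb 3 A' (1 / b) (by positivity)
  refine ⟨c, C, hc, hC, ?_⟩
  intro k G T hk hG hS hT x W a hW hWT hsup ha
  have hbk : 2 ≤ b ^ k := by
    calc 2 ≤ b := hb
      _ = b ^ 1 := (pow_one b).symm
      _ ≤ b ^ k := Nat.pow_le_pow_right (by omega) (by omega)
  refine (h (b ^ k) (Jc b k G) (fun j => j / b) (fun j => (j % b) * b ^ (j / b)) (fun _ => 1) (fun _ => G)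
    (range (b ^ (k / 2))) T hbk ?_ ?_ ?_ hT x W a hW hWT ?_).1 ha
  · intro j hj
    obtain ⟨h1, h2, h3, h4, h5, h6⟩ := mem_Jc hb hj
    refine ⟨le_rfl, ?_, ?_, ?_, fun i hi => hG i (lt_trans hi h1), ?_⟩
    · show 1 * b ^ (j / b) ≤ (j % b) * b ^ (j / b)
      exact Nat.mul_le_mul_right _ (by omega)
    · show 1 / (b : ℝ) * (((j % b) * b ^ (j / b) : ℕ) : ℝ) ≤ ((1 : ℕ) : ℝ) * (b : ℝ) ^ (j / b)
      have h7 : ((j % b : ℕ) : ℝ) ≤ b := by exact_mod_cast h4.le
      push_cast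
      rw [one_div, one_mul, inv_mul_le_iff₀ hb0]
      exact mul_le_mul_of_nonneg_right (by exact_mod_cast h4.le) (by positivity)
    · show b ^ k ≤ b ^ (3 * (j / b))
      exact Nat.pow_le_pow_right (by omega) (by omega)
    · intro y hy
      show (j % b) * b ^ (j / b) + 1 * y ≤ b ^ k
      have hy' : y < b ^ (j / b) := by
        unfold S at hy
        rw [mem_filter, mem_range] at hy
        exact hy.1
      have h7 := lt_succ_pow b (j / b) (j % b) y h4 hy'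
      have h8 : b ^ (j / b + 1) ≤ b ^ k := Nat.pow_le_pow_right (by omega) (by omega)
      omega
  · refine le_trans ?_ hS
    exact_mod_cast sum_le b k hb G
  · rw [card_range]
    have h1 : ((b ^ (k / 2) : ℕ) : ℝ) ^ 2 ≤ ((b ^ k : ℕ) : ℝ) := by
      have : (b ^ (k / 2)) ^ 2 ≤ b ^ k := by
        rw [← pow_mul]
        exact Nat.pow_le_pow_right (by omega) (by omega)
      exact_mod_cast this
    rw [← Real.sqrt_eq_rpow]
    exact Real.le_sqrt_of_sq_le h1
  · intro n hn hne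
    have h1 := hsup n hn hne
    rcases lt_or_ge n (b ^ (k / 2)) with h2 | h2
    · exact Or.inl (mem_range.2 h2)
    · exact Or.inr (covered b k hb G n h1 h2)

end Pool.Agent.U108.DT.AS
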