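import Mathlib

set_option autoImplicit false

/-! Mixed differences of the logarithm. -/

namespace Pool.Agent.U108.DT
open Finset

/-- the mixed difference of order `s` with the steps `y` -/
def dif : (s : ℕ) → (Fin s → ℝ) → (ℝ → ℝ) → ℝ → ℝ
  | 0, _, G, A => G A
  | s + 1, y, G, A => dif s (fun i => y i.succ) G (A + y 0) - dif s (fun i => y i.succ) G A

lemma dif_succ (s : ℕ) (y : Fin (s + 1) → ℝ) (G : ℝ → ℝ) (A : ℝ) :
    dif (s + 1) y G A = dif s (fun i => y i.succ) G (A + y 0) - dif s (fun i => y i.succ) G A := rfl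

/-- the derivatives of the logarithm -/
noncomputable def F : ℕ → ℝ → ℝ
  | 0, z => Real.log z
  | m + 1, z => (-1) ^ m * m.factorial / z ^ (m + 1)

lemma F_deriv (m : ℕ) (z : ℝ) (hz : 0 < z) : HasDerivAt (F m) (F (m + 1) z) z := by
  cases m with
  | zero =>
    have h1 := Real.hasDerivAt_log hz.ne'
    have e : F (0 + 1) z = z⁻¹ := by simp [F]
    rw [e]
    exact h1
  | succ m =>
    have h1 : HasDerivAt (fun x : ℝ => ((-1 : ℝ) ^ m * m.factorial) * (x ^ (m + 1))⁻¹)
        (((-1 : ℝ) ^ m * m.factorial) * (-(((m + 1 : ℕ) : ℝ) * z ^ m) / (z ^ (m + 1)) ^ 2)) z := by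
      have h2 : HasDerivAt (fun x : ℝ => x ^ (m + 1)) (((m + 1 : ℕ) : ℝ) * z ^ m) z := by
        simpa using hasDerivAt_pow (m + 1) z
      exact (h2.inv (pow_ne_zero _ hz.ne')).const_mul _
    have e1 : F (m + 1) = fun x : ℝ => ((-1 : ℝ) ^ m * m.factorial) * (x ^ (m + 1))⁻¹ := by
      funext x
      simp only [F]
      rw [div_eq_mul_inv]
    have e2 : F (m + 1 + 1) z = ((-1 : ℝ) ^ m * m.factorial) * (-(((m + 1 : ℕ) : ℝ) * z ^ m) / (z ^ (m + 1)) ^ 2) := by
      simp only [F]
      rw [Nat.factorial_succ]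
      have hz' : z ≠ 0 := hz.ne'
      push_cast
      field_simp
      ring
    rw [e1, e2]
    exact h1

lemma dif_deriv : ∀ (s : ℕ) (y : Fin s → ℝ), (∀ i, 0 ≤ y i) → ∀ (m : ℕ) (z : ℝ), 0 < z →
    HasDerivAt (dif s y (F m)) (dif s y (F (m + 1)) z) z := by
  intro s
  induction s with
  | zero =>
    intro y _ m z hz
    exact F_deriv m z hz
  | succ s ih =>
    intro y hy m z hz
    have h1 := ih (fun i => y i.succ) (fun i => hy _) m (z + y 0) (by linarith [hy 0])
    have h2 := ih (fun i => y i.succ) (fun i => hy _) m z hz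
    have h3 : HasDerivAt (fun x : ℝ => dif s (fun i => y i.succ) (F m) (x + y 0)) (dif s (fun i => y i.succ) (F (m + 1)) (z + y 0)) z := by
      simpa using h1.comp_add_const z (y 0)
    exact h3.sub h2

/-- the mean value theorem for the mixed differences -/
lemma dif_mvt : ∀ (s : ℕ) (y : Fin s → ℝ), (∀ i, 0 ≤ y i) → ∀ (m : ℕ) (A : ℝ), 0 < A →
    ∃ ξ, A ≤ ξ ∧ ξ ≤ A + ∑ i, y i ∧ dif s y (F m) A = (∏ i, y i) * F (m + s) ξ := by
  intro s
  induction s with
  | zero =>
    intro y _ m A hA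
    exact ⟨A, le_rfl, by simp, by simp [dif]⟩
  | succ s ih =>
    intro y hy m A hA
    have hs0 : 0 ≤ ∑ i : Fin s, y i.succ := sum_nonneg fun i _ => hy _
    rcases (hy 0).eq_or_lt with h0 | h0
    · refine ⟨A, le_rfl, by rw [Fin.sum_univ_succ]; linarith [hy 0], ?_⟩
      rw [Fin.prod_univ_succ, dif_succ, ← h0, zero_mul, zero_mul, add_zero, sub_self]
    · obtain ⟨c, hc, hc2⟩ := exists_hasDerivAt_eq_slope (dif s (fun i => y i.succ) (F m)) (dif s (fun i => y i.succ) (F (m + 1)))
        (show A < A + y 0 by linarith) (fun x hx => ((dif_deriv s (fun i => y i.succ) (fun i => hy _) m x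
          (by linarith [hx.1])).continuousAt).continuousWithinAt) (fun x hx => dif_deriv s (fun i => y i.succ) (fun i => hy _) m x
          (by linarith [hx.1]))
      obtain ⟨ξ, h1, h2, h3⟩ := ih (fun i => y i.succ) (fun i => hy _) (m + 1) c (by linarith [hc.1])
      refine ⟨ξ, by linarith [hc.1], ?_, ?_⟩
      · rw [Fin.sum_univ_succ]
        linarith [hc.2]
      · rw [Fin.prod_univ_succ]
        have e1 : m + (s + 1) = m + 1 + s := by ring
        rw [e1, mul_assoc, ← h3, hc2, dif_succ, add_sub_cancel_left]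
        field_simp

/-- a function of a sum is its mixed difference plus functions which do not depend on one of the variables -/
lemma dif_low : ∀ (s : ℕ) (G : ℝ → ℝ) (A : ℝ), ∃ R : Fin s → (Fin s → ℝ) → ℝ,
    (∀ k y x, R k (Function.update y k x) = R k y) ∧ ∀ y, G (A + ∑ i, y i) = dif s y G A + ∑ k, R k y := by
  intro s
  induction s with
  | zero =>
    intro G A
    exact ⟨fun k _ => k.elim0, fun k => k.elim0, fun y => by simp [dif]⟩
  | succ s ih =>
    intro G A
    choose R hR1 hR2 using fun B : ℝ => ih G B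
    refine ⟨fun k y => Fin.cases (dif s (fun i => y i.succ) G A) (fun k' => R (A + y 0) k' (fun i => y i.succ)) k, ?_, ?_⟩
    · intro k y x
      refine Fin.cases ?_ (fun k' => ?_) k
      · simp only [Fin.cases_zero]
        congr 1
      · simp only [Fin.cases_succ]
        have e1 : (Function.update y k'.succ x) 0 = y 0 := Function.update_of_ne (Fin.succ_ne_zero k').symm _ _
        have e2 : (fun i : Fin s => (Function.update y k'.succ x) i.succ) = Function.update (fun i : Fin s => y i.succ) k' x := by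
          funext i
          by_cases hi : i = k'
          · subst hi
            rw [Function.update_self, Function.update_self]
          · rw [Function.update_of_ne (fun h => hi (Fin.succ_injective _ h)), Function.update_of_ne hi]
        rw [e1, e2, hR1]
    · intro y
      rw [Fin.sum_univ_succ (f := fun i => y i), Fin.sum_univ_succ]
      simp only [Fin.cases_zero, Fin.cases_succ]
      have h1 := hR2 (A + y 0) (fun i => y i.succ)
      rw [← add_assoc, h1, dif_succ]
      ring

/-- the mixed difference of the logarithm and its main term -/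
lemma dif_main (s : ℕ) (y : Fin (s + 1) → ℝ) (hy : ∀ i, 0 ≤ y i) (A : ℝ) (hA : 0 < A) :
    |dif (s + 1) y (F 0) A - (∏ i, y i) * F (s + 1) A| ≤ (s + 1).factorial * (∏ i, y i) * (∑ i, y i) / A ^ (s + 2) := by
  obtain ⟨ξ, h1, h2, h3⟩ := dif_mvt (s + 1) y hy 0 A hA
  rw [h3, zero_add]
  have hp : 0 ≤ ∏ i, y i := prod_nonneg fun i _ => hy i
  have hξ : 0 < ξ := by linarith
  have hS : 0 ≤ ∑ i, y i := sum_nonneg fun i _ => hy i
  rw [← mul_sub, abs_mul, abs_of_nonneg hp]
  have e1 : F (s + 1) ξ - F (s + 1) A = (-1) ^ s * s.factorial * (1 / ξ ^ (s + 1) - 1 / A ^ (s + 1)) := by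
    simp only [F]
    ring
  rw [e1, abs_mul, abs_mul, abs_pow, abs_neg, abs_one, one_pow, one_mul, Nat.abs_cast]
  have h4 : |1 / ξ ^ (s + 1) - 1 / A ^ (s + 1)| ≤ (s + 1) * (∑ i, y i) / A ^ (s + 2) := by
    have h5 : 1 / ξ ^ (s + 1) ≤ 1 / A ^ (s + 1) := one_div_le_one_div_of_le (by positivity) (pow_le_pow_left₀ hA.le h1 _)
    rw [abs_sub_comm, abs_of_nonneg (by linarith)]
    -- Bernoulli
    have hr0 : 0 < A / ξ := by positivity
    have hr1 : A / ξ ≤ 1 := (div_le_one hξ).2 h1
    have h6 : 1 - (s + 1 : ℕ) * (1 - A / ξ) ≤ (A / ξ) ^ (s + 1) := by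
      have h7 := one_add_mul_le_pow (show (-2 : ℝ) ≤ A / ξ - 1 by linarith) (s + 1)
      have e2 : 1 + (A / ξ - 1) = A / ξ := by ring
      rw [e2] at h7
      linarith
    have h8 : 1 - A / ξ ≤ (∑ i, y i) / A := by
      have e3 : 1 - A / ξ = (ξ - A) / ξ := by field_simp
      rw [e3]
      calc (ξ - A) / ξ ≤ (∑ i, y i) / ξ := div_le_div_of_nonneg_right (by linarith) hξ.le
        _ ≤ _ := div_le_div_of_nonneg_left hS hA h1
    have e4 : 1 / A ^ (s + 1) - 1 / ξ ^ (s + 1) = (1 - (A / ξ) ^ (s + 1)) / A ^ (s + 1) := by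
      rw [div_pow]
      field_simp
    rw [e4]
    have e5 : (s + 1) * (∑ i, y i) / A ^ (s + 2) = ((s + 1) * ((∑ i, y i) / A)) / A ^ (s + 1) := by
      rw [pow_succ A (s + 1)]
      field_simp
    rw [e5]
    apply div_le_div_of_nonneg_right _ (by positivity)
    have h9 : ((s + 1 : ℕ) : ℝ) * (1 - A / ξ) ≤ (s + 1) * ((∑ i, y i) / A) := by
      push_cast
      exact mul_le_mul_of_nonneg_left h8 (by positivity)
    linarith
  calc (∏ i, y i) * (s.factorial * |1 / ξ ^ (s + 1) - 1 / A ^ (s + 1)|)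
      ≤ (∏ i, y i) * (s.factorial * ((s + 1) * (∑ i, y i) / A ^ (s + 2))) :=
        mul_le_mul_of_nonneg_left (mul_le_mul_of_nonneg_left h4 (by positivity)) hp
    _ = _ := by
        rw [Nat.factorial_succ]
        push_cast
        ring

end Pool.Agent.U108.DT
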