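import Pool.Agent.U108.DP.W4

set_option autoImplicit false

/-! Sums over digit points of real phases which are nearly multilinear in some windows. -/

namespace Pool.Agent.U108.DT
open Finset
open Pool.Agent.U108.ML
open Pool.Agent.U108.DP

lemma e_norm (x : ℝ) : ‖e x‖ = 1 := by
  unfold e
  rw [show (2 * Real.pi * x * Complex.I : ℂ) = ((2 * Real.pi * x : ℝ) : ℂ) * Complex.I by push_cast; ring]
  exact Complex.norm_exp_ofReal_mul_I _

lemma e_sub (x y : ℝ) : ‖e x - e y‖ ≤ 2 * Real.pi * |x - y| := by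
  have h1 : e x = e y * e (x - y) := by
    rw [← e_add]
    congr 1
    ring
  have h2 : e x - e y = e y * (e (x - y) - 1) := by rw [h1]; ring
  rw [h2, norm_mul, e_norm, one_mul]
  unfold e
  have h3 := Real.norm_exp_I_mul_ofReal_sub_one_le (x := 2 * Real.pi * (x - y))
  rw [show (2 * Real.pi * ((x - y : ℝ) : ℂ) * Complex.I : ℂ) = Complex.I * ((2 * Real.pi * (x - y) : ℝ) : ℂ) by push_cast; ring]
  refine h3.trans (le_of_eq ?_)
  rw [Real.norm_eq_abs, abs_mul, abs_of_pos (by positivity : (0 : ℝ) < 2 * Real.pi)]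

variable {ι : Type} [Fintype ι] [DecidableEq ι]

open Classical in
theorem win_boundR {b : ℕ} (h : ℕ) (hh : 1 ≤ h) {s : ℕ} (Dg : ι → Finset ℕ) (hD : Ok b Dg) (M : ℕ)
    (lab : ι → Option (Fin (s + 1))) (φ : Fin (s + 1) → ℕ → ι) (Φ Γ : Pt Dg → ℝ) (η : ℝ)
    (hv : ∀ a : Pt Dg, ∃ R : Fin (s + 1) → (Fin (s + 1) → Pt Dg) → ℝ, (∀ k i x, R k (Function.update i k x) = R k i) ∧
      ∀ a' : Fin (s + 1) → Pt Dg, |Φ (mixp Dg lab a a') - (Γ a * ∏ w, ((wv b M (φ w) (a' w) : ℤ) : ℝ) + ∑ k, R k a')| ≤ η)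
    (K : ℝ) (hK : 0 < K) (hB : ∀ a, ‖Bx b M h Dg φ (Γ a)‖ * K ^ ((2 * h) ^ (s + 1)) ≤ (Fintype.card (X h (Pt Dg)) : ℝ) ^ (s + 1)) :
    ‖∑ a : Pt Dg, e (Φ a)‖ ≤ Fintype.card (Pt Dg) * (1 / K + 2 * Real.pi * η) := by
  obtain ⟨q, hq⟩ : ∃ q, q = (2 * h) ^ (s + 1) := ⟨_, rfl⟩
  have hq2 : 2 * h ≤ q := by
    rw [hq]
    calc 2 * h = (2 * h) ^ 1 := (pow_one _).symm
      _ ≤ (2 * h) ^ (s + 1) := Nat.pow_le_pow_right (by omega) (by omega)
  obtain ⟨Y, hY⟩ : ∃ Y : ℝ, Y = Fintype.card (Pt Dg) := ⟨_, rfl⟩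
  have hYp : 0 < Y := by rw [hY]; exact_mod_cast card_Pt_pos Dg hD
  have hX : (Fintype.card (X h (Pt Dg)) : ℝ) = Y ^ (2 * h) := by rw [card_X, hY]; push_cast; rfl
  rw [hX] at hB
  rw [← hq] at hB
  rw [← hY]
  have hcard : (Fintype.card (Fin (s + 1) → Pt Dg) : ℝ) = Y ^ (s + 1) := by
    rw [Fintype.card_fun, Fintype.card_fin, hY]
    push_cast
    rfl
  have one : ∀ a : Pt Dg, ‖∑ a' : Fin (s + 1) → Pt Dg, e (Φ (mixp Dg lab a a'))‖ ≤ Y ^ (s + 1) * (1 / K + 2 * Real.pi * η) := by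
    intro a
    obtain ⟨R, hR1, hR2⟩ := hv a
    have g2 := gowers h hh s (fun _ => Pt Dg) (fun w a' => ((wv b M (φ w) a' : ℤ) : ℝ)) (Γ a)
      (fun i => ∑ k, R k i) ⟨fun k i => R k i, fun i => rfl, fun k i x => hR1 k i x⟩
    rw [← hq] at g2
    have g4 : ∑ x : (Fin (s + 1) → X h (Pt Dg)), e (Γ a * ∏ k, D h (fun a' : Pt Dg => ((wv b M (φ k) a' : ℤ) : ℝ)) (x k)) =
        Bx b M h Dg φ (Γ a) := by
      unfold Bx
      refine sum_congr rfl fun x _ => ?_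
      congr 2
      push_cast
      refine prod_congr rfl fun k _ => ?_
      unfold D
      push_cast
      rfl
    have g5 : (∏ _k : Fin (s + 1), (Fintype.card (Pt Dg) : ℝ)) = Y ^ (s + 1) := by
      rw [prod_const, card_univ, Fintype.card_fin, hY]
    rw [g4, g5] at g2
    obtain ⟨T', hT'⟩ : ∃ T' : ℂ, T' = ∑ i : (Fin (s + 1) → Pt Dg), e (Γ a * ∏ k, ((wv b M (φ k) (i k) : ℤ) : ℝ) + ∑ k, R k i) := ⟨_, rfl⟩
    rw [← hT'] at g2
    have g6 : ‖T'‖ ≤ Y ^ (s + 1) / K := by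
      rw [le_div_iff₀ hK]
      apply le_of_pow_le_pow_left₀ (n := q) (by omega) (by positivity)
      calc (‖T'‖ * K) ^ q = ‖T'‖ ^ q * K ^ q := mul_pow _ _ _
        _ ≤ ((Y ^ (s + 1)) ^ (q - 2 * h) * ‖Bx b M h Dg φ (Γ a)‖) * K ^ q := mul_le_mul_of_nonneg_right g2 (by positivity)
        _ = (Y ^ (s + 1)) ^ (q - 2 * h) * (‖Bx b M h Dg φ (Γ a)‖ * K ^ q) := by ring
        _ ≤ (Y ^ (s + 1)) ^ (q - 2 * h) * (Y ^ (2 * h)) ^ (s + 1) := mul_le_mul_of_nonneg_left (hB a) (by positivity)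
        _ = (Y ^ (s + 1)) ^ q := by
          rw [← pow_mul Y (2 * h), ← pow_mul Y (s + 1), ← pow_add, ← pow_mul]
          congr 1
          obtain ⟨d, hd⟩ : ∃ d, q = d + 2 * h := ⟨q - 2 * h, by omega⟩
          rw [hd, Nat.add_sub_cancel]
          ring
    have g7 : ‖∑ a' : Fin (s + 1) → Pt Dg, e (Φ (mixp Dg lab a a')) - T'‖ ≤ Y ^ (s + 1) * (2 * Real.pi * η) := by
      rw [hT', ← sum_sub_distrib]
      refine (norm_sum_le _ _).trans ?_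
      calc ∑ i : Fin (s + 1) → Pt Dg, ‖e (Φ (mixp Dg lab a i)) - e (Γ a * ∏ k, ((wv b M (φ k) (i k) : ℤ) : ℝ) + ∑ k, R k i)‖
          ≤ ∑ _i : Fin (s + 1) → Pt Dg, 2 * Real.pi * η := by
            apply sum_le_sum
            intro i _
            exact (e_sub _ _).trans (mul_le_mul_of_nonneg_left (hR2 i) (by positivity))
        _ = _ := by rw [sum_const, card_univ, nsmul_eq_mul, hcard]
    calc ‖∑ a' : Fin (s + 1) → Pt Dg, e (Φ (mixp Dg lab a a'))‖ = ‖(∑ a' : Fin (s + 1) → Pt Dg, e (Φ (mixp Dg lab a a')) - T') + T'‖ := by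
          rw [sub_add_cancel]
      _ ≤ ‖∑ a' : Fin (s + 1) → Pt Dg, e (Φ (mixp Dg lab a a')) - T'‖ + ‖T'‖ := norm_add_le _ _
      _ ≤ Y ^ (s + 1) * (2 * Real.pi * η) + Y ^ (s + 1) / K := add_le_add g7 g6
      _ = _ := by ring
  have hsm := sum_mix Dg lab (fun a => e (Φ a))
  have hn : Y ^ (s + 1) * ‖∑ a : Pt Dg, e (Φ a)‖ = ‖∑ a, ∑ a' : Fin (s + 1) → Pt Dg, e (Φ (mixp Dg lab a a'))‖ := by
    rw [← hsm, norm_mul, _root_.norm_pow, Complex.norm_natCast, hY]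
  have hfin : Y ^ (s + 1) * ‖∑ a : Pt Dg, e (Φ a)‖ ≤ Y ^ (s + 1) * (Y * (1 / K + 2 * Real.pi * η)) := by
    rw [hn]
    refine (norm_sum_le _ _).trans ?_
    calc ∑ a, ‖∑ a' : Fin (s + 1) → Pt Dg, e (Φ (mixp Dg lab a a'))‖ ≤ ∑ _a : Pt Dg, Y ^ (s + 1) * (1 / K + 2 * Real.pi * η) :=
          sum_le_sum fun a _ => one a
      _ = _ := by
        rw [sum_const, card_univ, nsmul_eq_mul, ← hY]
        ring
  exact le_of_mul_le_mul_left hfin (by positivity)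

end Pool.Agent.U108.DT
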