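import Pool.Agent.U108.DT.A
import Pool.Agent.U108.DT.B
import Pool.Agent.U108.DP.W7

set_option autoImplicit false

/-! The sum of `n ^ (i t)` over numbers with restricted digits: one choice of the windows. -/

namespace Pool.Agent.U108.DT
open Finset
open Pool.Agent.U108.ML
open Pool.Agent.U108.DP
open Pool.Agent.TH872.Sq (nn nn_nonneg)

lemma wv_bounds {ι : Type} [Fintype ι] [DecidableEq ι] {b : ℕ} (Dg : ι → Finset ℕ) (hD : Ok b Dg) (M : ℕ) (φ : ℕ → ι) (a : Pt Dg) :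
    0 ≤ wv b M φ a ∧ wv b M φ a + 1 ≤ (b : ℤ) ^ M := by
  induction M with
  | zero => unfold wv; simp
  | succ M ih =>
    have h1 : wv b (M + 1) φ a = wv b M φ a + (b : ℤ) ^ M * (a : ι → ℕ) (φ M) := by
      unfold wv
      rw [sum_range_succ]
    have h2 : (a : ι → ℕ) (φ M) < b := dig_lt Dg hD a (φ M)
    have h3 : (((a : ι → ℕ) (φ M) : ℕ) : ℤ) + 1 ≤ b := by exact_mod_cast h2
    have h4 : (0 : ℤ) ≤ (b : ℤ) ^ M := by positivity
    rw [h1]
    refine ⟨by have := ih.1; positivity, ?_⟩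
    rw [pow_succ]
    nlinarith [ih.2]

lemma not_bad {b A J : ℕ} (hb : 2 ≤ b) {γ : ℝ} (h1 : 2 * (b.factorial * |γ|) * (b : ℝ) ^ A ≤ 1) (h2 : 1 < b.factorial * |γ| * (b : ℝ) ^ J) :
    ¬ Bad b A J γ := by
  rintro ⟨g, hg0, hgA, hg⟩
  have hb0 : (0 : ℝ) < b := by exact_mod_cast (by omega : 0 < b)
  have hJ : (0 : ℝ) < (b : ℝ) ^ J := by positivity
  have hg1 : (1 : ℝ) ≤ g := by exact_mod_cast hg0
  have hg2 : (g : ℝ) < (b : ℝ) ^ A := by exact_mod_cast hgA
  obtain ⟨x, hx⟩ : ∃ x : ℝ, x = b.factorial * γ * g := ⟨_, rfl⟩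
  have hax : |x| = b.factorial * |γ| * g := by rw [hx, abs_mul, abs_mul, Nat.abs_cast, Nat.abs_cast]
  have hpos : 0 < (b.factorial : ℝ) * |γ| := by
    by_contra hcon
    push Not at hcon
    have : (b.factorial : ℝ) * |γ| * (b : ℝ) ^ J ≤ 0 := mul_nonpos_of_nonpos_of_nonneg hcon hJ.le
    linarith
  have hx2 : |x| < 1 / 2 := by
    rw [hax]
    have : (b.factorial : ℝ) * |γ| * g < b.factorial * |γ| * (b : ℝ) ^ A := mul_lt_mul_of_pos_left hg2 hpos
    linarith
  have hr : round x = 0 := by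
    rw [round_eq_zero_iff]
    have := abs_lt.1 hx2
    constructor <;> linarith [this.1, this.2]
  rw [← hx] at hg
  unfold nn at hg
  rw [hr, Int.cast_zero, sub_zero, hax, le_div_iff₀ hJ] at hg
  have : (b.factorial : ℝ) * |γ| * (b : ℝ) ^ J ≤ b.factorial * |γ| * g * (b : ℝ) ^ J := by
    apply mul_le_mul_of_nonneg_right _ hJ.le
    exact le_mul_of_one_le_right hpos.le hg1
  linarith

open Classical in
theorem core (b r : ℕ) (hb : 2 ≤ b) : ∃ h : ℕ, 1 ≤ h ∧ ∀ L' : ℕ, 1 ≤ L' → ∀ L M : ℕ, L = (2 * h) ^ (r + 2) * L' →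
    M = Bs b (As b r + 2) r * L → ∀ (l : ℕ), 0 < l → ∀ (Dg : Unit × Fin l → Finset ℕ), Ok b Dg →
    ∀ (A Q N t : ℝ), 0 < N → N ≤ A → 0 < Q → Q * (b : ℝ) ^ l ≤ N →
    (∀ a : Pt Dg, A + Q * (num b (a : Unit × Fin l → ℕ) () : ℤ) ≤ 2 * N) → ∀ (v e0 : ℕ), (∀ w : ℕ, w < r + 2 → w * M + (v + w) / (r + 2) + M + e0 ≤ l) →
    ∀ c : ℝ, c = b.factorial * (((r + 1).factorial * |t| * (Q ^ (r + 2) * (b : ℝ) ^ (∑ w : Fin (r + 2), ((w : ℕ) * M + (v + w) / (r + 2))))) / (2 * Real.pi * N ^ (r + 2))) →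
    2 * c * (b : ℝ) ^ (As b r * L) ≤ 1 → 2 ^ (r + 2) < c * (b : ℝ) ^ ((As b r + 2) * L) →
    ‖∑ a : Pt Dg, e (t / (2 * Real.pi) * Real.log (A + Q * (num b (a : Unit × Fin l → ℕ) () : ℤ)))‖ ≤
      Fintype.card (Pt Dg) * (1 / 2 ^ L' + 2 * Real.pi * (((r : ℝ) + 2) ^ 2 * (b : ℝ) ^ ((r + 2) * M) / (b : ℝ) ^ e0)) := by
  obtain ⟨h, hh, hW⟩ := weyl_windows b (As b r + 2) hb (by omega)
  refine ⟨h, hh, ?_⟩
  intro L' hL' L M hL hM l hl Dg hD A Q N t hN hNA hQ hQl hA v e0 htop c hc hc1 hc2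
  have hb0 : (0 : ℝ) < b := by exact_mod_cast (by omega : 0 < b)
  have hb1 : (1 : ℝ) ≤ b := by exact_mod_cast (by omega : 1 ≤ b)
  have hL1 : 1 ≤ L := by
    rw [hL]
    exact Nat.mul_pos (by positivity) (by omega)
  obtain ⟨rr, hrr⟩ : ∃ rr : ℕ → ℕ, rr = fun w => w * M + (v + w) / (r + 2) := ⟨_, rfl⟩
  have hrr1 : ∀ w w' : Fin (r + 2), w < w' → rr w + M ≤ rr w' := by
    intro w w' hww
    have hww' : (w : ℕ) + 1 ≤ w' := hww
    rw [hrr]
    simp only
    have h1 : ((w : ℕ) + 1) * M ≤ w' * M := Nat.mul_le_mul_right _ hww'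
    have h2 : (v + w) / (r + 2) ≤ (v + w') / (r + 2) := Nat.div_le_div_right (by omega)
    rw [add_mul, one_mul] at h1
    omega
  have hrr2 : ∀ w : Fin (r + 2), rr w + M ≤ l := by
    intro w
    have := htop w w.2
    rw [hrr]
    simp only
    omega
  obtain ⟨g, hg⟩ : ∃ g : Fin (r + 2) → Unit, g = fun _ => () := ⟨_, rfl⟩
  obtain ⟨P, hP⟩ : ∃ P : ℕ, P = ∑ w : Fin (r + 2), rr w := ⟨_, rfl⟩
  have hP' : (∑ w : Fin (r + 2), ((w : ℕ) * M + (v + w) / (r + 2))) = P := by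
    rw [hP, hrr]
  rw [hP'] at hc
  obtain ⟨A0, hA0⟩ : ∃ A0 : Pt Dg → ℝ, A0 = fun (a : Pt Dg) => A + Q * ((∑ i : Fin l, if wl M g rr ((), i) = none then (b : ℤ) ^ (i : ℕ) * (a : Unit × Fin l → ℕ) ((), i) else 0 : ℤ) : ℝ) := ⟨_, rfl⟩
  obtain ⟨φ, hφ⟩ : ∃ φ : Fin (r + 2) → ℕ → Unit × Fin l, φ = fun w => wp hl g rr w := ⟨_, rfl⟩
  obtain ⟨y, hy⟩ : ∃ y : (Fin (r + 2) → Pt Dg) → Fin (r + 2) → ℝ, y = fun (a' : Fin (r + 2) → Pt Dg) (w : Fin (r + 2)) => Q * (b : ℝ) ^ rr w * ((wv b M (φ w) (a' w) : ℤ) : ℝ) := ⟨_, rfl⟩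
  have hmix : ∀ (a : Pt Dg) (a' : Fin (r + 2) → Pt Dg), A + Q * ((num b (mixp Dg (wl M g rr) a a' : Unit × Fin l → ℕ) () : ℤ) : ℝ) = A0 a + ∑ w, y a' w := by
    intro a a'
    have h1 := num_mix hl b M g rr hrr1 hrr2 (a : Unit × Fin l → ℕ) (fun w => (a' w : Unit × Fin l → ℕ)) ()
    have h2 : num b (mixp Dg (wl M g rr) a a' : Unit × Fin l → ℕ) () = (∑ i : Fin l, if wl M g rr ((), i) = none then (b : ℤ) ^ (i : ℕ) * (a : Unit × Fin l → ℕ) ((), i) else 0) +
      ∑ w : Fin (r + 2), ((b : ℤ) ^ rr w * wv b M (wp hl g rr w) (a' w)) := by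
      refine h1.trans ?_
      congr 1
    rw [h2, hA0, hy, hφ]
    push_cast
    rw [mul_add, ← add_assoc]
    congr 1
    rw [mul_sum]
    refine sum_congr rfl fun w _ => ?_
    ring
  have hy0 : ∀ a' w, 0 ≤ y a' w := by
    intro a' w
    rw [hy]
    have h1 := (wv_bounds Dg hD M (φ w) (a' w)).1
    have h2 : (0 : ℝ) ≤ ((wv b M (φ w) (a' w) : ℤ) : ℝ) := by exact_mod_cast h1
    simp only
    positivity
  have hy1 : ∀ a' w, y a' w ≤ Q * ((b : ℝ) ^ rr w * (b : ℝ) ^ M) := by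
    intro a' w
    rw [hy]
    have h1 := (wv_bounds Dg hD M (φ w) (a' w)).2
    have h2 : ((wv b M (φ w) (a' w) : ℤ) : ℝ) + 1 ≤ (b : ℝ) ^ M := by exact_mod_cast h1
    simp only
    calc Q * (b : ℝ) ^ rr w * ((wv b M (φ w) (a' w) : ℤ) : ℝ) ≤ Q * (b : ℝ) ^ rr w * (b : ℝ) ^ M :=
          mul_le_mul_of_nonneg_left (by linarith) (by positivity)
      _ = _ := by ring
  have hA01 : ∀ a, N ≤ A0 a := by
    intro a
    rw [hA0]
    have h1 : (0 : ℤ) ≤ ∑ i : Fin l, if wl M g rr ((), i) = none then (b : ℤ) ^ (i : ℕ) * (a : Unit × Fin l → ℕ) ((), i) else 0 := by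
      apply sum_nonneg
      intro i _
      split_ifs
      · positivity
      · exact le_rfl
    have h2 : (0 : ℝ) ≤ Q * ((∑ i : Fin l, if wl M g rr ((), i) = none then (b : ℤ) ^ (i : ℕ) * (a : Unit × Fin l → ℕ) ((), i) else 0 : ℤ) : ℝ) :=
      mul_nonneg hQ.le (by exact_mod_cast h1)
    simp only
    linarith
  have hA02 : ∀ a, A0 a ≤ 2 * N := by
    intro a
    have h1 := hmix a (fun _ => a)
    have h2 := hA (mixp Dg (wl M g rr) a (fun _ => a))
    rw [h1] at h2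
    have h3 : 0 ≤ ∑ w, y (fun _ => a) w := sum_nonneg fun w _ => hy0 _ w
    linarith
  obtain ⟨Γ, hΓ⟩ : ∃ Γ : Pt Dg → ℝ, Γ = fun a => t / (2 * Real.pi) * (Q ^ (r + 2) * (b : ℝ) ^ P) * F (r + 2) (A0 a) := ⟨_, rfl⟩
  have hprod : ∀ a', ∏ w, y a' w = (Q ^ (r + 2) * (b : ℝ) ^ P) * ∏ w, ((wv b M (φ w) (a' w) : ℤ) : ℝ) := by
    intro a'
    rw [hy]
    simp only
    rw [prod_mul_distrib, prod_mul_distrib, prod_const, card_univ, Fintype.card_fin, hP, prod_pow_eq_pow_sum]
  have hΓabs : ∀ a, b.factorial * |Γ a| = b.factorial * (((r + 1).factorial * |t| * (Q ^ (r + 2) * (b : ℝ) ^ P)) / (2 * Real.pi * A0 a ^ (r + 2))) := by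
    intro a
    have hA0p : 0 < A0 a := lt_of_lt_of_le hN (hA01 a)
    rw [hΓ]
    simp only [F]
    rw [abs_mul, abs_mul, abs_div, abs_of_pos (by positivity : (0 : ℝ) < 2 * Real.pi), abs_of_pos (by positivity : (0 : ℝ) < Q ^ (r + 2) * (b : ℝ) ^ P),
      abs_div, abs_mul, abs_pow, abs_neg, abs_one, one_pow, one_mul, Nat.abs_cast, abs_of_pos (by positivity : (0 : ℝ) < A0 a ^ (r + 1 + 1))]
    field_simp
  have hpi := Real.pi_pos
  have hc0 : 0 ≤ c := by rw [hc]; positivity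
  have hΓ1 : ∀ a, b.factorial * |Γ a| ≤ c := by
    intro a
    rw [hΓabs, hc]
    apply mul_le_mul_of_nonneg_left _ (Nat.cast_nonneg _)
    apply div_le_div_of_nonneg_left (by positivity) (by positivity)
    apply mul_le_mul_of_nonneg_left _ (by positivity)
    exact pow_le_pow_left₀ hN.le (hA01 a) _
  have hΓ2 : ∀ a, c / 2 ^ (r + 2) ≤ b.factorial * |Γ a| := by
    intro a
    have hA0p : 0 < A0 a := lt_of_lt_of_le hN (hA01 a)
    rw [hΓabs, hc, mul_div_assoc, div_div]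
    apply mul_le_mul_of_nonneg_left _ (Nat.cast_nonneg _)
    apply div_le_div_of_nonneg_left (by positivity) (by positivity)
    calc 2 * Real.pi * A0 a ^ (r + 2) ≤ 2 * Real.pi * (2 * N) ^ (r + 2) := by
          apply mul_le_mul_of_nonneg_left _ (by positivity)
          exact pow_le_pow_left₀ hA0p.le (hA02 a) _
      _ = _ := by rw [mul_pow]; ring
  have hbad : ∀ a, ¬ Bad b (As b r * L) ((As b r + 2) * L) (Γ a) := by
    intro a
    apply not_bad hb
    · refine le_trans ?_ hc1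
      apply mul_le_mul_of_nonneg_right _ (by positivity)
      linarith [hΓ1 a]
    · have h1 : (1 : ℝ) < c / 2 ^ (r + 2) * (b : ℝ) ^ ((As b r + 2) * L) := by
        rw [div_mul_eq_mul_div, one_lt_div (by positivity)]
        exact hc2
      refine lt_of_lt_of_le h1 ?_
      exact mul_le_mul_of_nonneg_right (hΓ2 a) (by positivity)
  have hK : ((2 : ℝ) ^ L') ^ ((2 * h) ^ (r + 2)) = 2 ^ L := by
    rw [← pow_mul, hL, mul_comm L']
  have hw := win_boundR h hh Dg hD M (wl M g rr) φ (fun a => t / (2 * Real.pi) * Real.log (A + Q * (num b (a : Unit × Fin l → ℕ) () : ℤ))) Γ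
    (((r : ℝ) + 2) ^ 2 * (b : ℝ) ^ ((r + 2) * M) / (b : ℝ) ^ e0) (by
      intro a
      have hA0p : 0 < A0 a := lt_of_lt_of_le hN (hA01 a)
      obtain ⟨R, hR1, hR2⟩ := dif_low (r + 2) (F 0) (A0 a)
      refine ⟨fun k a' => t / (2 * Real.pi) * R k (y a'), ?_, ?_⟩
      · intro k i x
        have e1 : y (Function.update i k x) = Function.update (y i) k (y (Function.update i k x) k) := by
          funext w
          by_cases hwk : w = k
          · subst hwk
            rw [Function.update_self]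
          · rw [Function.update_of_ne hwk, hy]
            simp only
            rw [Function.update_of_ne hwk]
        simp only
        rw [e1, hR1]
      · intro a'
        simp only
        rw [hmix a a']
        have h1 := hR2 (y a')
        have h2 : Real.log (A0 a + ∑ w, y a' w) = F 0 (A0 a + ∑ w, y a' w) := rfl
        rw [h2, h1]
        have h3 : t / (2 * Real.pi) * (dif (r + 2) (y a') (F 0) (A0 a) + ∑ k, R k (y a')) -
            (Γ a * ∏ w, ((wv b M (φ w) (a' w) : ℤ) : ℝ) + ∑ k, t / (2 * Real.pi) * R k (y a')) =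
            t / (2 * Real.pi) * (dif (r + 2) (y a') (F 0) (A0 a) - (∏ w, y a' w) * F (r + 2) (A0 a)) := by
          rw [hprod, ← mul_sum, hΓ]
          simp only
          ring
        rw [h3, abs_mul, abs_div, abs_of_pos (by positivity : (0 : ℝ) < 2 * Real.pi)]
        have h4 := dif_main (r + 1) (y a') (hy0 a') (A0 a) hA0p
        have h5 : ∏ w, y a' w ≤ (Q ^ (r + 2) * (b : ℝ) ^ P) * (b : ℝ) ^ ((r + 2) * M) := by
          calc ∏ w, y a' w ≤ ∏ w : Fin (r + 2), Q * ((b : ℝ) ^ rr w * (b : ℝ) ^ M) :=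
                prod_le_prod (fun w _ => hy0 a' w) (fun w _ => hy1 a' w)
            _ = _ := by
              rw [prod_mul_distrib, prod_mul_distrib, prod_const, prod_const, card_univ, Fintype.card_fin, hP,
                prod_pow_eq_pow_sum, ← pow_mul, mul_comm M]
              ring
        have h6 : ∑ w, y a' w ≤ (r + 2) * (N / (b : ℝ) ^ e0) := by
          calc ∑ w, y a' w ≤ ∑ _w : Fin (r + 2), N / (b : ℝ) ^ e0 := by
                apply sum_le_sum
                intro w _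
                refine (hy1 a' w).trans ?_
                rw [le_div_iff₀ (by positivity)]
                refine le_trans ?_ hQl
                rw [mul_assoc]
                apply mul_le_mul_of_nonneg_left _ hQ.le
                rw [← pow_add, ← pow_add]
                apply pow_le_pow_right₀ hb1
                have := htop w w.2
                rw [hrr]
                simp only
                omega
            _ = _ := by
              rw [sum_const, card_univ, Fintype.card_fin, nsmul_eq_mul]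
              push_cast
              ring
        have hy00 : 0 ≤ ∏ w, y a' w := prod_nonneg fun w _ => hy0 a' w
        have hfac : (1 : ℝ) ≤ b.factorial := by exact_mod_cast Nat.one_le_iff_ne_zero.2 (Nat.factorial_ne_zero b)
        obtain ⟨G, hG⟩ : ∃ G : ℝ, G = ((r + 1).factorial * |t| * (Q ^ (r + 2) * (b : ℝ) ^ P)) / (2 * Real.pi * N ^ (r + 2)) := ⟨_, rfl⟩
        have hG0 : 0 ≤ G := by rw [hG]; positivity
        have hG1 : G ≤ 1 := by
          have h7 : G ≤ c := by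
            rw [hc, ← hG]
            exact le_mul_of_one_le_left hG0 hfac
          have h8 : 2 * c * 1 ≤ 2 * c * (b : ℝ) ^ (As b r * L) := mul_le_mul_of_nonneg_left (one_le_pow₀ hb1) (by linarith)
          linarith
        calc |t| / (2 * Real.pi) * |dif (r + 2) (y a') (F 0) (A0 a) - (∏ w, y a' w) * F (r + 2) (A0 a)|
            ≤ |t| / (2 * Real.pi) * ((r + 1 + 1).factorial * (∏ w, y a' w) * (∑ w, y a' w) / A0 a ^ (r + 1 + 2)) :=
              mul_le_mul_of_nonneg_left h4 (by positivity)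
          _ ≤ |t| / (2 * Real.pi) * ((r + 1 + 1).factorial * ((Q ^ (r + 2) * (b : ℝ) ^ P) * (b : ℝ) ^ ((r + 2) * M)) * ((r + 2) * (N / (b : ℝ) ^ e0)) / N ^ (r + 1 + 2)) := by
              apply mul_le_mul_of_nonneg_left _ (by positivity)
              apply div_le_div₀ (by positivity) _ (by positivity) (pow_le_pow_left₀ hN.le (hA01 a) _)
              apply mul_le_mul _ h6 (sum_nonneg fun w _ => hy0 a' w) (by positivity)
              exact mul_le_mul_of_nonneg_left h5 (by positivity)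
          _ = G * ((((r : ℝ) + 2) ^ 2 * (b : ℝ) ^ ((r + 2) * M)) / (b : ℝ) ^ e0) := by
              rw [hG, Nat.factorial_succ (r + 1), show r + 1 + 2 = (r + 2) + 1 by ring, pow_succ N (r + 2)]
              push_cast
              field_simp
              ring
          _ ≤ 1 * ((((r : ℝ) + 2) ^ 2 * (b : ℝ) ^ ((r + 2) * M)) / (b : ℝ) ^ e0) :=
              mul_le_mul_of_nonneg_right hG1 (by positivity)
          _ = _ := one_mul _)
    (2 ^ L') (by positivity) (by
      intro a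
      rw [hK]
      rcases hW r L M hL1 (le_of_eq hM.symm) (Unit × Fin l) Dg hD φ (by
        intro w
        rw [hφ]
        exact wp_inj hl M g rr w (hrr2 w)) (Γ a) with h1 | h1
      · exact h1
      · exact absurd h1 (hbad a))
  exact hw

end Pool.Agent.U108.DT
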