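import Pool.Agent.U108.DT.C

set_option autoImplicit false

/-! The sum of `n ^ (i t)` over numbers with restricted digits saves a power. -/

namespace Pool.Agent.U108.DT
open Finset
open Pool.Agent.U108.ML
open Pool.Agent.U108.DP

lemma hermiteF (s : ℕ) (hs : 0 < s) (M v : ℕ) :
    ∑ w : Fin s, ((w : ℕ) * M + (v + w) / s) = (∑ w : Fin s, (w : ℕ) * M) + v := by
  rw [sum_add_distrib]
  congr 1
  rw [Fin.sum_univ_eq_sum_range (fun w => (v + w) / s) s]
  exact hermite s hs v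

lemma P0_le (s M : ℕ) : (∑ w : Fin s, (w : ℕ) * M) ≤ s ^ 2 * M := by
  calc (∑ w : Fin s, (w : ℕ) * M) ≤ ∑ _w : Fin s, s * M := sum_le_sum fun w _ => Nat.mul_le_mul_right _ w.2.le
    _ = _ := by rw [sum_const, card_univ, Fintype.card_fin, smul_eq_mul]; ring

lemma top_ok (s l M v κ0 w : ℕ) (hs : 0 < s) (hw : w < s) (hv : v ≤ κ0 + l * (s - 1)) (h : 2 * (s ^ 2 * M + κ0 + s) ≤ l) :
    w * M + (v + w) / s + M + l / (2 * s) ≤ l := by
  have h1 : (v + w) / s * s ≤ v + w := Nat.div_mul_le_self _ _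
  have h2 : l / (2 * s) * (2 * s) ≤ l := Nat.div_mul_le_self _ _
  obtain ⟨a, ha⟩ : ∃ a, a = (v + w) / s := ⟨_, rfl⟩
  obtain ⟨c, hc⟩ : ∃ c, c = l / (2 * s) := ⟨_, rfl⟩
  rw [← ha] at h1 ⊢
  rw [← hc] at h2 ⊢
  obtain ⟨s', rfl⟩ : ∃ s', s = s' + 1 := ⟨s - 1, by omega⟩
  rw [Nat.add_sub_cancel] at hv
  have h3 : w * M ≤ s' * M := Nat.mul_le_mul_right _ (by omega)
  have h4 : (2 * (s' + 1)) * (w * M + a + M + c) ≤ (2 * (s' + 1)) * l := by
    have e1 : (2 * (s' + 1)) * (w * M + a + M + c) = 2 * (s' + 1) * (w * M + M) + 2 * (a * (s' + 1)) + c * (2 * (s' + 1)) := by ring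
    have e2 : 2 * (s' + 1) * (w * M + M) ≤ 2 * (s' + 1) * (s' * M + M) := Nat.mul_le_mul_left _ (by omega)
    have e3 : 2 * (s' + 1) * (s' * M + M) = 2 * ((s' + 1) ^ 2 * M) := by ring
    have e4 : (2 * (s' + 1)) * l = 2 * (l * s') + 2 * l := by ring
    rw [e1, e4]
    omega
  exact Nat.le_of_mul_le_mul_left h4 (by omega)

theorem e1_aux (b c0 X1 X2 X3 : ℝ) (hb0 : 0 < b) :
    c0 * X3 * (X1 * X2) = ((X3 * b) * (2 * c0 * X1)) * (X2 / (2 * b)) := by
  have hbne : b ≠ 0 := hb0.ne'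
  field_simp

theorem kernel (b : ℕ) (hb : 2 ≤ b) (m A' : ℕ) (ω : ℝ) (hω : 0 < ω) : ∃ δ C : ℝ, 0 < δ ∧ 1 ≤ C ∧
    ∀ (l : ℕ), 0 < l → ∀ (Dg : Unit × Fin l → Finset ℕ), Ok b Dg →
    ∀ (A Q N t : ℝ), 1 ≤ N → N ≤ A → 1 ≤ Q → Q * (b : ℝ) ^ l ≤ N → ω * N ≤ Q * (b : ℝ) ^ l → N ≤ (b : ℝ) ^ (l * m) →
    (∀ a : Pt Dg, A + Q * (num b (a : Unit × Fin l → ℕ) () : ℤ) ≤ 2 * N) → N ≤ |t| → |t| ≤ (2 * N) ^ A' →
    ‖∑ a : Pt Dg, e (t / (2 * Real.pi) * Real.log (A + Q * (num b (a : Unit × Fin l → ℕ) () : ℤ)))‖ ≤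
      C * Fintype.card (Pt Dg) * N ^ (-δ) := by
  obtain ⟨r, hr⟩ : ∃ r, r = m * A' := ⟨_, rfl⟩
  obtain ⟨h, hh, hcore⟩ := core b r hb
  obtain ⟨q, hq⟩ : ∃ q, q = (2 * h) ^ (r + 2) := ⟨_, rfl⟩
  have hq1 : 1 ≤ q := by rw [hq]; exact Nat.one_le_iff_ne_zero.2 (by positivity)
  obtain ⟨B1, hB1⟩ : ∃ B1, B1 = Bs b (As b r + 2) r * q := ⟨_, rfl⟩
  have hb0 : (0 : ℝ) < b := by exact_mod_cast (by omega : 0 < b)
  have hb1 : (1 : ℝ) ≤ b := by exact_mod_cast (by omega : 1 ≤ b)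
  have hb2 : (2 : ℝ) ≤ b := by exact_mod_cast hb
  obtain ⟨κ0, hκ0⟩ := pow_unbounded_of_one_lt (4 / ω ^ (r + 2)) (one_lt_two : (1 : ℝ) < 2)
  obtain ⟨κ1, hκ1⟩ := pow_unbounded_of_one_lt ((b.factorial : ℝ) * (r + 1).factorial * 2 ^ A') (one_lt_two : (1 : ℝ) < 2)
  obtain ⟨Λ, hΛ⟩ : ∃ Λ, Λ = 8 * (r + 2) ^ 3 * (B1 + q * As b r + κ0 + κ1 + 2) := ⟨_, rfl⟩
  have hΛ0 : 0 < Λ := by rw [hΛ]; positivity
  have hlogb : 0 < Real.log b := Real.log_pos (by linarith)
  have hlog2 : 0 < Real.log 2 := Real.log_pos one_lt_two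
  obtain ⟨δ, hδ⟩ : ∃ δ : ℝ, δ = Real.log 2 / (Λ * (m + 1) * Real.log b) := ⟨_, rfl⟩
  have hΛr : (0 : ℝ) < Λ := by exact_mod_cast hΛ0
  have hδ0 : 0 < δ := by rw [hδ]; positivity
  have hpi := Real.pi_pos
  refine ⟨δ, 2 * (1 + 2 * Real.pi * ((r : ℝ) + 2) ^ 2) + 2 ^ (r + 5), hδ0, ?_, ?_⟩
  · have h1 : (1 : ℝ) ≤ 2 ^ (r + 5) := one_le_pow₀ (by norm_num)
    have : 0 ≤ 2 * (1 + 2 * Real.pi * ((r : ℝ) + 2) ^ 2) := by positivity
    linarith
  intro l hl Dg hD A Q N t hN hNA hQ hQl hωN hNl hA ht1 ht2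
  have hN0 : 0 < N := by linarith
  have hQ0 : 0 < Q := by linarith
  obtain ⟨L', hL'⟩ : ∃ L', L' = l / Λ := ⟨_, rfl⟩
  -- the size of N
  have hNδ : N ^ δ ≤ 2 ^ (L' + 1) := by
    have h1 : l < Λ * (L' + 1) := by
      rw [hL']
      have := Nat.lt_mul_div_succ l hΛ0
      simpa using this
    have h2 : Real.log N ≤ (l * m : ℕ) * Real.log b := by
      have := Real.log_le_log hN0 hNl
      rwa [Real.log_pow] at this
    have h3 : Real.log N ≤ (Λ * (L' + 1)) * (m + 1) * Real.log b := by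
      refine h2.trans ?_
      apply mul_le_mul_of_nonneg_right _ hlogb.le
      have h4 : ((l * m : ℕ) : ℝ) ≤ ((Λ * (L' + 1) * (m + 1) : ℕ) : ℝ) := by
        exact_mod_cast Nat.mul_le_mul h1.le (by omega)
      push_cast at h4 ⊢
      exact h4
    calc N ^ δ = Real.exp (Real.log N * δ) := by rw [Real.rpow_def_of_pos hN0]
      _ ≤ Real.exp ((Λ * (L' + 1)) * (m + 1) * Real.log b * δ) := Real.exp_le_exp.2 (mul_le_mul_of_nonneg_right h3 hδ0.le)
      _ = Real.exp (((L' + 1 : ℕ) : ℝ) * Real.log 2) := by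
          congr 1
          rw [hδ]
          push_cast
          field_simp
      _ = 2 ^ (L' + 1) := by rw [Real.exp_nat_mul, Real.exp_log two_pos]
  have hNδ0 : 0 < N ^ δ := Real.rpow_pos_of_pos hN0 _
  have hNneg : 1 / 2 ^ (L' + 1) ≤ N ^ (-δ) := by
    rw [Real.rpow_neg hN0.le, ← one_div]
    exact one_div_le_one_div_of_le hNδ0 hNδ
  have hcard : (0 : ℝ) ≤ Fintype.card (Pt Dg) := Nat.cast_nonneg _
  have h2L : (0 : ℝ) < 2 ^ (L' + 1) := by positivity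
  by_cases hbig : L' < r + 4
  · -- trivial bound
    have h1 : ‖∑ a : Pt Dg, e (t / (2 * Real.pi) * Real.log (A + Q * (num b (a : Unit × Fin l → ℕ) () : ℤ)))‖ ≤ Fintype.card (Pt Dg) := by
      refine (norm_sum_le _ _).trans (le_of_eq ?_)
      simp only [e_norm]
      rw [sum_const, card_univ, nsmul_eq_mul, mul_one]
    have h2 : (1 : ℝ) ≤ 2 ^ (r + 5) * N ^ (-δ) := by
      have h3 : (1 : ℝ) / 2 ^ (r + 5) ≤ 1 / 2 ^ (L' + 1) :=
        one_div_le_one_div_of_le h2L (pow_le_pow_right₀ (by norm_num) (by omega))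
      calc (1 : ℝ) = 2 ^ (r + 5) * (1 / 2 ^ (r + 5)) := by field_simp
        _ ≤ 2 ^ (r + 5) * N ^ (-δ) := mul_le_mul_of_nonneg_left (h3.trans hNneg) (by positivity)
    calc _ ≤ (Fintype.card (Pt Dg) : ℝ) * 1 := by rw [mul_one]; exact h1
      _ ≤ Fintype.card (Pt Dg) * (2 ^ (r + 5) * N ^ (-δ)) := mul_le_mul_of_nonneg_left h2 hcard
      _ = 2 ^ (r + 5) * Fintype.card (Pt Dg) * N ^ (-δ) := by ring
      _ ≤ _ := by
        apply mul_le_mul_of_nonneg_right _ (Real.rpow_nonneg hN0.le _)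
        apply mul_le_mul_of_nonneg_right _ hcard
        have : 0 ≤ 2 * (1 + 2 * Real.pi * ((r : ℝ) + 2) ^ 2) := by positivity
        linarith
  · push Not at hbig
    obtain ⟨L, hL⟩ : ∃ L, L = q * L' := ⟨_, rfl⟩
    obtain ⟨M, hM⟩ : ∃ M, M = B1 * L' := ⟨_, rfl⟩
    have hΛL : Λ * L' ≤ l := by rw [hL']; exact Nat.mul_div_le l Λ
    have hΛL2 : 8 * (r + 2) ^ 3 * (B1 + q * As b r + κ0 + κ1 + 2) * L' ≤ l := by rw [← hΛ]; exact hΛL
    have hs3 : (r + 2) ^ 2 ≤ (r + 2) ^ 3 := Nat.pow_le_pow_right (by omega) (by omega)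
    have hs1 : r + 2 ≤ (r + 2) ^ 3 := by
      calc r + 2 = (r + 2) ^ 1 := (pow_one _).symm
        _ ≤ _ := Nat.pow_le_pow_right (by omega) (by omega)
    have hs2 : r + 2 ≤ (r + 2) ^ 2 := by
      calc r + 2 = (r + 2) ^ 1 := (pow_one _).symm
        _ ≤ _ := Nat.pow_le_pow_right (by omega) (by omega)
    have hL'1 : 1 ≤ L' := by omega
    -- the conditions
    have c1 : 2 * ((r + 2) ^ 2 * M + κ0 + (r + 2)) ≤ l := by
      rw [hM]
      refine le_trans ?_ hΛL2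
      have k1 : (r + 2) ^ 2 * (B1 * L') ≤ (r + 2) ^ 3 * (B1 * L') := Nat.mul_le_mul_right _ hs3
      have k2 : κ0 ≤ (r + 2) ^ 3 * (κ0 * L') := by
        calc κ0 = 1 * (κ0 * 1) := by ring
          _ ≤ _ := Nat.mul_le_mul (by nlinarith) (Nat.mul_le_mul_left _ hL'1)
      have k3 : r + 2 ≤ (r + 2) ^ 3 * (1 * L') := by
        calc r + 2 = (r + 2) * (1 * 1) := by ring
          _ ≤ _ := Nat.mul_le_mul hs1 (Nat.mul_le_mul_left _ hL'1)
      calc 2 * ((r + 2) ^ 2 * (B1 * L') + κ0 + (r + 2)) ≤ 2 * ((r + 2) ^ 3 * (B1 * L') + (r + 2) ^ 3 * (κ0 * L') + (r + 2) ^ 3 * (1 * L')) := by omega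
        _ = 2 * (r + 2) ^ 3 * ((B1 + κ0 + 1) * L') := by ring
        _ ≤ 8 * (r + 2) ^ 3 * ((B1 + q * As b r + κ0 + κ1 + 2) * L') :=
            Nat.mul_le_mul (Nat.mul_le_mul_right _ (by norm_num)) (Nat.mul_le_mul_right _ (by
              have : 0 ≤ q * As b r := Nat.zero_le _
              omega))
        _ = _ := by ring
    have c3 : κ1 + (r + 2) ^ 2 * M + As b r * L ≤ l := by
      rw [hM, hL]
      refine le_trans ?_ hΛL2
      have k1 : (r + 2) ^ 2 * (B1 * L') ≤ (r + 2) ^ 3 * (B1 * L') := Nat.mul_le_mul_right _ hs3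
      have k2 : κ1 ≤ (r + 2) ^ 3 * (κ1 * L') := by
        calc κ1 = 1 * (κ1 * 1) := by ring
          _ ≤ _ := Nat.mul_le_mul (by nlinarith) (Nat.mul_le_mul_left _ hL'1)
      have k3 : As b r * (q * L') ≤ (r + 2) ^ 3 * (q * As b r * L') := by
        calc As b r * (q * L') = 1 * (q * As b r * L') := by ring
          _ ≤ _ := Nat.mul_le_mul_right _ (by nlinarith)
      calc κ1 + (r + 2) ^ 2 * (B1 * L') + As b r * (q * L') ≤ (r + 2) ^ 3 * (κ1 * L') + (r + 2) ^ 3 * (B1 * L') + (r + 2) ^ 3 * (q * As b r * L') := by omega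
        _ = 1 * (r + 2) ^ 3 * ((κ1 + B1 + q * As b r) * L') := by ring
        _ ≤ 8 * (r + 2) ^ 3 * ((B1 + q * As b r + κ0 + κ1 + 2) * L') :=
            Nat.mul_le_mul (Nat.mul_le_mul_right _ (by norm_num)) (Nat.mul_le_mul_right _ (by omega))
        _ = _ := by ring
    have c4 : (r + 2) * M + L' ≤ l / (2 * (r + 2)) := by
      rw [Nat.le_div_iff_mul_le (by omega), hM]
      refine le_trans ?_ hΛL2
      have k1 : (r + 2) * (r + 2) ≤ (r + 2) ^ 3 := by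
        rw [← pow_two]; exact hs3
      have k2 : ((r + 2) * (B1 * L') + L') * (2 * (r + 2)) ≤ 2 * ((r + 2) ^ 3 * (B1 * L')) + 2 * ((r + 2) ^ 3 * L') := by
        have k3 : (r + 2) * (r + 2) * (B1 * L') ≤ (r + 2) ^ 3 * (B1 * L') := Nat.mul_le_mul_right _ k1
        have k4 : (r + 2) * L' ≤ (r + 2) ^ 3 * L' := Nat.mul_le_mul_right _ hs1
        nlinarith
      refine k2.trans ?_
      calc 2 * ((r + 2) ^ 3 * (B1 * L')) + 2 * ((r + 2) ^ 3 * L') = 2 * (r + 2) ^ 3 * ((B1 + 1) * L') := by ring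
        _ ≤ 8 * (r + 2) ^ 3 * ((B1 + q * As b r + κ0 + κ1 + 2) * L') :=
            Nat.mul_le_mul (Nat.mul_le_mul_right _ (by norm_num)) (Nat.mul_le_mul_right _ (by
              have : 0 ≤ q * As b r := Nat.zero_le _
              omega))
        _ = _ := by ring
    -- the place of the windows
    obtain ⟨P0, hP0⟩ : ∃ P0, P0 = ∑ w : Fin (r + 2), (w : ℕ) * M := ⟨_, rfl⟩
    have hP0le : P0 ≤ (r + 2) ^ 2 * M := by rw [hP0]; exact P0_le _ _
    obtain ⟨c0, hc0⟩ : ∃ c0 : ℝ, c0 = b.factorial * (((r + 1).factorial * |t| * (Q ^ (r + 2) * (b : ℝ) ^ P0)) / (2 * Real.pi * N ^ (r + 2))) := ⟨_, rfl⟩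
    have ht0 : 0 < |t| := by linarith
    have hfb : (1 : ℝ) ≤ b.factorial := by exact_mod_cast Nat.one_le_iff_ne_zero.2 (Nat.factorial_ne_zero b)
    have hfr : (1 : ℝ) ≤ (r + 1).factorial := by exact_mod_cast Nat.one_le_iff_ne_zero.2 (Nat.factorial_ne_zero (r + 1))
    have hc00 : 0 < c0 := by rw [hc0]; positivity
    have hup : 2 * c0 * (b : ℝ) ^ (As b r * L) ≤ 1 := by
      have k1 : Q / N ≤ 1 / (b : ℝ) ^ l := by
        rw [div_le_div_iff₀ hN0 (by positivity), one_mul]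
        exact hQl
      have k2 : |t| ≤ 2 ^ A' * (b : ℝ) ^ (l * m * A') := by
        refine ht2.trans ?_
        rw [mul_pow, pow_mul (b : ℝ) (l * m) A']
        exact mul_le_mul_of_nonneg_left (pow_le_pow_left₀ hN0.le hNl _) (by positivity)
      have k3 : c0 = b.factorial * (r + 1).factorial * |t| * (Q / N) ^ (r + 2) * (b : ℝ) ^ P0 / (2 * Real.pi) := by
        rw [hc0, div_pow]
        field_simp
      have hpi2 : (1 : ℝ) ≤ Real.pi := by linarith [Real.pi_gt_three]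
      have k4 : 2 * c0 ≤ (b.factorial * (r + 1).factorial * 2 ^ A') * ((b : ℝ) ^ (l * m * A') * (1 / (b : ℝ) ^ l) ^ (r + 2) * (b : ℝ) ^ P0) := by
        calc 2 * c0 = (b.factorial * (r + 1).factorial * |t| * (Q / N) ^ (r + 2) * (b : ℝ) ^ P0) / Real.pi := by rw [k3]; field_simp
          _ ≤ b.factorial * (r + 1).factorial * |t| * (Q / N) ^ (r + 2) * (b : ℝ) ^ P0 := div_le_self (by positivity) hpi2
          _ ≤ b.factorial * (r + 1).factorial * (2 ^ A' * (b : ℝ) ^ (l * m * A')) * (1 / (b : ℝ) ^ l) ^ (r + 2) * (b : ℝ) ^ P0 := by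
              apply mul_le_mul_of_nonneg_right _ (by positivity)
              apply mul_le_mul _ (pow_le_pow_left₀ (by positivity) k1 _) (by positivity) (by positivity)
              exact mul_le_mul_of_nonneg_left k2 (by positivity)
          _ = _ := by ring
      have k5 : 2 * c0 ≤ (b : ℝ) ^ κ1 * ((b : ℝ) ^ (l * m * A') * (1 / (b : ℝ) ^ l) ^ (r + 2) * (b : ℝ) ^ P0) := by
        refine k4.trans ?_
        apply mul_le_mul_of_nonneg_right _ (by positivity)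
        exact hκ1.le.trans (pow_le_pow_left₀ (by norm_num) hb2 _)
      have k6 : (b : ℝ) ^ (l * m * A') * (1 / (b : ℝ) ^ l) ^ (r + 2) = 1 / (b : ℝ) ^ (2 * l) := by
        have e1 : l * (r + 2) = l * m * A' + 2 * l := by rw [hr]; ring
        rw [one_div_pow, ← pow_mul, e1, pow_add]
        field_simp
      rw [k6] at k5
      calc 2 * c0 * (b : ℝ) ^ (As b r * L) ≤ ((b : ℝ) ^ κ1 * (1 / (b : ℝ) ^ (2 * l) * (b : ℝ) ^ P0)) * (b : ℝ) ^ (As b r * L) :=
            mul_le_mul_of_nonneg_right k5 (by positivity)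
        _ = (b : ℝ) ^ (κ1 + P0 + As b r * L) / (b : ℝ) ^ (2 * l) := by
            rw [pow_add, pow_add]
            ring
        _ ≤ 1 := by
            rw [div_le_one (by positivity)]
            exact pow_le_pow_right₀ hb1 (by omega)
    obtain ⟨v, hv1, hv2⟩ := exists_nat_pow_near (x := 1 / (2 * c0 * (b : ℝ) ^ (As b r * L))) (y := (b : ℝ))
      (by rw [le_div_iff₀ (by positivity), one_mul]; exact hup) (by linarith)
    rw [le_div_iff₀ (by positivity)] at hv1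
    rw [div_lt_iff₀ (by positivity)] at hv2
    have hv3 : v ≤ κ0 + l * (r + 2 - 1) := by
      have k1 : (b : ℝ) ^ v * (2 * c0) ≤ 1 := by
        refine le_trans ?_ hv1
        apply mul_le_mul_of_nonneg_left _ (by positivity)
        exact le_mul_of_one_le_right (by positivity) (one_le_pow₀ hb1)
      have k2 : |t| * Q ^ (r + 2) / (Real.pi * N ^ (r + 2)) ≤ 2 * c0 := by
        have e1 : 2 * c0 = (b.factorial * (r + 1).factorial * (b : ℝ) ^ P0) * (|t| * Q ^ (r + 2) / (Real.pi * N ^ (r + 2))) := by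
          rw [hc0]; field_simp
        rw [e1]
        apply le_mul_of_one_le_left (by positivity)
        have : (1 : ℝ) ≤ (b : ℝ) ^ P0 := one_le_pow₀ hb1
        calc (1 : ℝ) = 1 * 1 * 1 := by norm_num
          _ ≤ _ := mul_le_mul (mul_le_mul hfb hfr (by norm_num) (by positivity)) this (by norm_num) (by positivity)
      have k3 : (b : ℝ) ^ v * (|t| * Q ^ (r + 2)) ≤ Real.pi * N ^ (r + 2) := by
        have := mul_le_mul_of_nonneg_left k2 (show (0 : ℝ) ≤ (b : ℝ) ^ v by positivity)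
        have k4 := this.trans k1
        rw [mul_div_assoc', div_le_one (by positivity)] at k4
        exact k4
      have k5 : ω ^ (r + 2) * N ^ (r + 2) ≤ Q ^ (r + 2) * (b : ℝ) ^ (l * (r + 2)) := by
        rw [← mul_pow, pow_mul, ← mul_pow]
        exact pow_le_pow_left₀ (by positivity) hωN _
      have k6 : (b : ℝ) ^ l ≤ |t| := by
        refine le_trans ?_ (hQl.trans ht1)
        exact le_mul_of_one_le_left (by positivity) hQ
      have k7 : (b : ℝ) ^ v * (b : ℝ) ^ l * ω ^ (r + 2) ≤ 4 * (b : ℝ) ^ (l * (r + 2)) := by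
        have k8 : (b : ℝ) ^ v * (b : ℝ) ^ l * ω ^ (r + 2) * Q ^ (r + 2) ≤ 4 * (b : ℝ) ^ (l * (r + 2)) * Q ^ (r + 2) := by
          calc (b : ℝ) ^ v * (b : ℝ) ^ l * ω ^ (r + 2) * Q ^ (r + 2) = ω ^ (r + 2) * ((b : ℝ) ^ v * ((b : ℝ) ^ l * Q ^ (r + 2))) := by ring
            _ ≤ ω ^ (r + 2) * ((b : ℝ) ^ v * (|t| * Q ^ (r + 2))) := by
                apply mul_le_mul_of_nonneg_left _ (by positivity)
                apply mul_le_mul_of_nonneg_left _ (by positivity)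
                exact mul_le_mul_of_nonneg_right k6 (by positivity)
            _ ≤ ω ^ (r + 2) * (Real.pi * N ^ (r + 2)) := mul_le_mul_of_nonneg_left k3 (by positivity)
            _ ≤ 4 * (ω ^ (r + 2) * N ^ (r + 2)) := by
                have : Real.pi ≤ 4 := Real.pi_le_four
                have h0 : 0 ≤ ω ^ (r + 2) * N ^ (r + 2) := by positivity
                nlinarith
            _ ≤ 4 * (Q ^ (r + 2) * (b : ℝ) ^ (l * (r + 2))) := mul_le_mul_of_nonneg_left k5 (by norm_num)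
            _ = _ := by ring
        exact le_of_mul_le_mul_right k8 (by positivity)
      have k9 : (b : ℝ) ^ (v + l) ≤ (b : ℝ) ^ (κ0 + l * (r + 2)) := by
        have k10 : 4 ≤ (b : ℝ) ^ κ0 * ω ^ (r + 2) := by
          have := hκ0.le.trans (pow_le_pow_left₀ (by norm_num) hb2 κ0)
          rwa [div_le_iff₀ (by positivity)] at this
        have k11 : (b : ℝ) ^ (v + l) * ω ^ (r + 2) ≤ (b : ℝ) ^ (κ0 + l * (r + 2)) * ω ^ (r + 2) := by
          rw [pow_add, pow_add (b : ℝ) κ0]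
          refine k7.trans ?_
          calc 4 * (b : ℝ) ^ (l * (r + 2)) ≤ ((b : ℝ) ^ κ0 * ω ^ (r + 2)) * (b : ℝ) ^ (l * (r + 2)) :=
                mul_le_mul_of_nonneg_right k10 (by positivity)
            _ = _ := by ring
        exact le_of_mul_le_mul_right k11 (by positivity)
      have k12 : v + l ≤ κ0 + l * (r + 2) := (pow_le_pow_iff_right₀ (by linarith : (1 : ℝ) < b)).1 k9
      have e2 : r + 2 - 1 = r + 1 := by omega
      rw [e2]
      have e3 : l * (r + 2) = l * (r + 1) + l := by ring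
      omega
    have hfin := hcore L' hL'1 L M (by rw [hL, hq]) (by rw [hM, hL, hB1]; ring) l hl Dg hD A Q N t hN0 hNA hQ0 hQl hA v (l / (2 * (r + 2)))
      (fun w hw => top_ok (r + 2) l M v κ0 w (by omega) hw hv3 c1) (c0 * (b : ℝ) ^ v) (by
        rw [hermiteF (r + 2) (by omega) M v, ← hP0, hc0, pow_add]
        field_simp
        exact (pow_add _ _ _).symm) (by
        calc 2 * (c0 * (b : ℝ) ^ v) * (b : ℝ) ^ (As b r * L) = (b : ℝ) ^ v * (2 * c0 * (b : ℝ) ^ (As b r * L)) := by ring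
          _ ≤ 1 := hv1) (by
        have e1 : c0 * (b : ℝ) ^ v * (b : ℝ) ^ ((As b r + 2) * L) = ((b : ℝ) ^ (v + 1) * (2 * c0 * (b : ℝ) ^ (As b r * L))) * ((b : ℝ) ^ (2 * L) / (2 * b)) := by
          have ea : (b : ℝ) ^ ((As b r + 2) * L) = (b : ℝ) ^ (As b r * L) * (b : ℝ) ^ (2 * L) := by
            rw [add_mul, pow_add]
          have eb : (b : ℝ) ^ (v + 1) = (b : ℝ) ^ v * b := pow_succ _ _
          rw [ea, eb]
          exact e1_aux b c0 _ _ _ hb0
        rw [e1]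
        have h2L2 : r + 4 ≤ 2 * L := by
          have : L' ≤ L := by rw [hL]; exact Nat.le_mul_of_pos_left _ (by omega)
          omega
        have k1 : (2 : ℝ) ^ (r + 2) ≤ (b : ℝ) ^ (2 * L) / (2 * b) := by
          rw [le_div_iff₀ (by positivity)]
          calc (2 : ℝ) ^ (r + 2) * (2 * b) ≤ (b : ℝ) ^ (r + 2) * (b * b) := by
                apply mul_le_mul (pow_le_pow_left₀ (by norm_num) hb2 _) _ (by positivity) (by positivity)
                exact mul_le_mul_of_nonneg_right hb2 hb0.le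
            _ = (b : ℝ) ^ (r + 4) := by ring
            _ ≤ _ := pow_le_pow_right₀ hb1 h2L2
        calc (2 : ℝ) ^ (r + 2) ≤ 1 * ((b : ℝ) ^ (2 * L) / (2 * b)) := by rw [one_mul]; exact k1
          _ < _ := mul_lt_mul_of_pos_right hv2 (by positivity))
    refine hfin.trans ?_
    have k1 : (b : ℝ) ^ ((r + 2) * M) / (b : ℝ) ^ (l / (2 * (r + 2))) ≤ 1 / 2 ^ L' := by
      rw [div_le_div_iff₀ (by positivity) (by positivity), one_mul]
      calc (b : ℝ) ^ ((r + 2) * M) * 2 ^ L' ≤ (b : ℝ) ^ ((r + 2) * M) * (b : ℝ) ^ L' :=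
            mul_le_mul_of_nonneg_left (pow_le_pow_left₀ (by norm_num) hb2 _) (by positivity)
        _ = (b : ℝ) ^ ((r + 2) * M + L') := (pow_add _ _ _).symm
        _ ≤ _ := pow_le_pow_right₀ hb1 c4
    have k2 : (1 : ℝ) / 2 ^ L' ≤ 2 * N ^ (-δ) := by
      have : (1 : ℝ) / 2 ^ L' = 2 * (1 / 2 ^ (L' + 1)) := by rw [pow_succ]; field_simp
      rw [this]
      linarith
    have k3 : 1 / 2 ^ L' + 2 * Real.pi * (((r : ℝ) + 2) ^ 2 * (b : ℝ) ^ ((r + 2) * M) / (b : ℝ) ^ (l / (2 * (r + 2)))) ≤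
        (2 * (1 + 2 * Real.pi * ((r : ℝ) + 2) ^ 2)) * N ^ (-δ) := by
      have k4 : ((r : ℝ) + 2) ^ 2 * (b : ℝ) ^ ((r + 2) * M) / (b : ℝ) ^ (l / (2 * (r + 2))) ≤ ((r : ℝ) + 2) ^ 2 * (2 * N ^ (-δ)) := by
        rw [mul_div_assoc]
        exact mul_le_mul_of_nonneg_left (k1.trans k2) (by positivity)
      have k5 := mul_le_mul_of_nonneg_left k4 (show (0 : ℝ) ≤ 2 * Real.pi by positivity)
      nlinarith
    calc (Fintype.card (Pt Dg) : ℝ) * (1 / 2 ^ L' + 2 * Real.pi * (((r : ℝ) + 2) ^ 2 * (b : ℝ) ^ ((r + 2) * M) / (b : ℝ) ^ (l / (2 * (r + 2)))))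
        ≤ Fintype.card (Pt Dg) * ((2 * (1 + 2 * Real.pi * ((r : ℝ) + 2) ^ 2)) * N ^ (-δ)) := mul_le_mul_of_nonneg_left k3 hcard
      _ = (2 * (1 + 2 * Real.pi * ((r : ℝ) + 2) ^ 2)) * Fintype.card (Pt Dg) * N ^ (-δ) := by ring
      _ ≤ _ := by
        apply mul_le_mul_of_nonneg_right _ (Real.rpow_nonneg hN0.le _)
        apply mul_le_mul_of_nonneg_right _ hcard
        have : (0 : ℝ) ≤ 2 ^ (r + 5) := by positivity
        linarith

end Pool.Agent.U108.DT
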