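import Pool.Agent.U108.DT.D
import Pool.Agent.U108.DT.F
import Pool.Agent.U108.DP.W8

set_option autoImplicit false

/-! Mean values of Dirichlet polynomials supported on numbers with restricted digits. -/

namespace Pool.Agent.U108.DT

open Finset
open Pool.Agent.U108.ML
open Pool.Agent.U108.DP
open Pool.Agent.TH705.DL (ph ph_norm Sep)
open Pool.Agent.TH872.GQ (S)

lemma sum_S (b l : ℕ) (hb : 2 ≤ b) (D : ℕ → Finset ℕ) (hD : ∀ i < l, D i ⊆ range b ∧ 2 ≤ (D i).card) (f : ℕ → ℂ) :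
    ∑ n ∈ S b D l, f n = ∑ a : Pt (Dx (J := Unit) l (fun _ => D)), f (tup b (a : Unit × Fin l → ℕ) ()) := by
  have h1 := Equiv.sum_comp (eqv (J := Unit) hb (fun _ => D) (fun _ => hD)) (fun n => f ((n : Unit → ℕ) ()))
  have h2 : ∑ a : Pt (Dx (J := Unit) l (fun _ => D)), f (tup b (a : Unit × Fin l → ℕ) ()) =
      ∑ n : {n : Unit → ℕ // n ∈ Bo b l (fun _ => D)}, f ((n : Unit → ℕ) ()) := h1
  rw [h2, sum_coe_sort (Bo b l (fun _ : Unit => D)) (fun n => f (n ()))]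
  unfold Bo
  symm
  refine sum_bij' (fun n _ => n ()) (fun n _ => fun _ => n) ?_ ?_ ?_ ?_ ?_
  · intro n hn
    exact (Fintype.mem_piFinset.1 hn) ()
  · intro n hn
    exact Fintype.mem_piFinset.2 (fun _ => hn)
  · intro n _
    funext u
    cases u
    rfl
  · intro n _
    rfl
  · intro n _
    rfl

lemma card_S (b l : ℕ) (hb : 2 ≤ b) (D : ℕ → Finset ℕ) (hD : ∀ i < l, D i ⊆ range b ∧ 2 ≤ (D i).card) :
    (S b D l).card = Fintype.card (Pt (Dx (J := Unit) l (fun _ => D))) := by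
  have h := sum_S b l hb D hD (fun _ => 1)
  rw [sum_const, sum_const, nsmul_eq_mul, nsmul_eq_mul, mul_one, mul_one, card_univ] at h
  exact_mod_cast h

lemma two_le_S (b l : ℕ) (hb : 2 ≤ b) (D : ℕ → Finset ℕ) (hD : ∀ i < l, D i ⊆ range b ∧ 2 ≤ (D i).card) :
    2 ^ l ≤ (S b D l).card := by
  rw [card_S b l hb D hD, card_Pt]
  calc 2 ^ l = ∏ _q : Unit × Fin l, 2 := by
        rw [prod_const, card_univ, Fintype.card_prod, Fintype.card_unit, one_mul, Fintype.card_fin]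
    _ ≤ _ := prod_le_prod' fun q _ => (hD q.2 q.2.2).2

lemma e_ph (t : ℝ) (n : ℕ) : e (t / (2 * Real.pi) * Real.log n) = ph t n := by
  unfold e ph
  congr 1
  push_cast
  have : (Real.pi : ℂ) ≠ 0 := by exact_mod_cast Real.pi_ne_zero
  field_simp

theorem kernel_ph (b : ℕ) (hb : 2 ≤ b) (m A' : ℕ) (ω : ℝ) (hω : 0 < ω) : ∃ δ C : ℝ, 0 < δ ∧ 1 ≤ C ∧
    ∀ (l : ℕ), 0 < l → ∀ (D : ℕ → Finset ℕ), (∀ i < l, D i ⊆ range b ∧ 2 ≤ (D i).card) →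
    ∀ (A Q M : ℕ) (t : ℝ), 1 ≤ M → M ≤ A → 1 ≤ Q → Q * b ^ l ≤ M → ω * M ≤ Q * (b : ℝ) ^ l → M ≤ b ^ (l * m) →
    (∀ x ∈ S b D l, A + Q * x ≤ 2 * M) → (M : ℝ) ≤ |t| → |t| ≤ (2 * M : ℝ) ^ A' →
    ‖∑ x ∈ S b D l, ph t (A + Q * x)‖ ≤ C * (S b D l).card * (M : ℝ) ^ (-δ) := by
  obtain ⟨δ, C, hδ, hC, hk⟩ := kernel b hb m A' ω hω
  refine ⟨δ, C, hδ, hC, ?_⟩
  intro l hl D hD A Q M t hM hMA hQ hQl hω' hMl hx ht1 ht2
  have hnum : ∀ a : Pt (Dx (J := Unit) l (fun _ => D)), (A : ℝ) + Q * (num b (a : Unit × Fin l → ℕ) () : ℤ) =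
      ((A + Q * tup b (a : Unit × Fin l → ℕ) () : ℕ) : ℝ) := by
    intro a
    rw [num_tup]
    push_cast
    ring
  have hmem : ∀ a : Pt (Dx (J := Unit) l (fun _ => D)), tup b (a : Unit × Fin l → ℕ) () ∈ S b D l := by
    intro a
    have h1 := ((eqv (J := Unit) hb (fun _ => D) (fun _ => hD)) a).2
    unfold Bo at h1
    exact (Fintype.mem_piFinset.1 h1) ()
  have h1 := hk l hl (Dx (J := Unit) l (fun _ => D)) ⟨fun q => (hD q.2 q.2.2).1, fun q => (hD q.2 q.2.2).2⟩ (A : ℝ) Q M t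
    (by exact_mod_cast hM) (by exact_mod_cast hMA) (by exact_mod_cast hQ) (by exact_mod_cast hQl) hω'
    (by exact_mod_cast hMl) (fun a => by
      rw [hnum a]
      exact_mod_cast hx _ (hmem a)) ht1 ht2
  rw [sum_S b l hb D hD (fun x => ph t (A + Q * x)), card_S b l hb D hD]
  refine le_trans (le_of_eq ?_) h1
  congr 1
  apply sum_congr rfl
  intro a _
  rw [hnum a, e_ph]

/-- For `j ∈ J`: `N/2 ≤ A_j`, `Q_j ≥ 1`, `A_j + Q_j b ^ (l_j) ≤ N`, `Q_j b ^ (l_j) ≥ ω N`, `b ^ (m l_j) ≥ N`, and `D j i`,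
`i < l_j`, are sets of at least two digits in base `b`. -/
def Fam (b m : ℕ) (ω : ℝ) (N : ℕ) (J : Finset ℕ) (l A Q : ℕ → ℕ) (D : ℕ → ℕ → Finset ℕ) : Prop :=
  ∀ j ∈ J, N ≤ 2 * A j ∧ 1 ≤ Q j ∧ A j + Q j * b ^ l j ≤ N ∧ ω * N ≤ Q j * (b : ℝ) ^ l j ∧ N ≤ b ^ (m * l j) ∧
    ∀ i < l j, D j i ⊆ range b ∧ 2 ≤ (D j i).card

theorem sets_of (b : ℕ) (hb : 2 ≤ b) (m A' : ℕ) (ω : ℝ) (hω : 0 < ω) : ∃ μ δ C : ℝ, 0 < μ ∧ μ ≤ 1 ∧ 0 < δ ∧ 1 ≤ C ∧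
    ∀ (N : ℕ) (J : Finset ℕ) (l A Q : ℕ → ℕ) (D : ℕ → ℕ → Finset ℕ) (T : ℝ), 1 ≤ N → Fam b m ω N J l A Q D →
    T ≤ (N : ℝ) ^ A' → Sets ((N + 1) / 2) μ δ C T J (fun j => S b (D j) (l j)) (fun j x => A j + Q j * x) := by
  obtain ⟨δ, C, hδ, hC, hk⟩ := kernel_ph b hb m A' ω hω
  have hbm : 0 < b * (m + 1) := by positivity
  have hbmr : (1 : ℝ) ≤ (b * (m + 1) : ℕ) := by exact_mod_cast hbm
  refine ⟨1 / (b * (m + 1) : ℕ), δ, C, by positivity, (div_le_one (by linarith)).2 hbmr, hδ, hC, ?_⟩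
  intro N J l A Q D T hN hF hT j hj
  obtain ⟨h1, h2, h3, h4, h5, h6⟩ := hF j hj
  obtain ⟨M, hM⟩ : ∃ M, M = (N + 1) / 2 := ⟨_, rfl⟩
  rw [← hM]
  have hM1 : 1 ≤ M := by omega
  have hMN : M ≤ N := by omega
  have hNM : N ≤ 2 * M := by omega
  have hMr : (1 : ℝ) ≤ M := by exact_mod_cast hM1
  have hNr : (N : ℝ) ≤ 2 * M := by exact_mod_cast hNM
  have hMNr : (M : ℝ) ≤ N := by exact_mod_cast hMN
  have hb0 : 0 < b ^ l j := by positivity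
  have hQb : 1 ≤ Q j * b ^ l j := Nat.one_le_iff_ne_zero.2 (by positivity)
  have hl : 0 < l j := by
    rcases Nat.eq_zero_or_pos (l j) with h | h
    · rw [h, mul_zero, pow_zero] at h5
      omega
    · exact h
  have hxlt : ∀ x ∈ S b (D j) (l j), A j + Q j * x ≤ N := by
    intro x hx
    unfold S at hx
    rw [mem_filter, mem_range] at hx
    have : Q j * x ≤ Q j * b ^ l j := Nat.mul_le_mul_left _ hx.1.le
    omega
  refine ⟨?_, ?_, ?_, ?_⟩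
  · have h7 : (2 : ℝ) ^ l j ≤ (S b (D j) (l j)).card := by exact_mod_cast two_le_S b (l j) hb (D j) h6
    have h8 : (M : ℝ) ≤ (2 : ℝ) ^ (l j * (b * (m + 1))) := by
      have h9 : M ≤ 2 ^ (l j * (b * (m + 1))) := by
        calc M ≤ b ^ (m * l j) := hMN.trans h5
          _ ≤ (2 ^ b) ^ (m * l j) := Nat.pow_le_pow_left (Nat.lt_two_pow_self).le _
          _ = 2 ^ (b * (m * l j)) := by rw [← pow_mul]
          _ ≤ _ := Nat.pow_le_pow_right (by norm_num) (by nlinarith [Nat.zero_le (b * l j)])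
      exact_mod_cast h9
    have h10 : (M : ℝ) ^ (1 / ((b * (m + 1) : ℕ) : ℝ)) ≤ (2 : ℝ) ^ l j := by
      calc (M : ℝ) ^ (1 / ((b * (m + 1) : ℕ) : ℝ)) ≤ ((2 : ℝ) ^ (l j * (b * (m + 1)))) ^ (1 / ((b * (m + 1) : ℕ) : ℝ)) :=
            Real.rpow_le_rpow (by linarith) h8 (by positivity)
        _ = (2 : ℝ) ^ l j := by
            rw [pow_mul, one_div]
            exact Real.pow_rpow_inv_natCast (by positivity) hbm.ne'
    have h11 : (0 : ℝ) ≤ (2 : ℝ) ^ l j := by positivity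
    have h12 : (M : ℝ) ^ (1 / ((b * (m + 1) : ℕ) : ℝ)) ≤ 2 * ((S b (D j) (l j)).card : ℝ) := by linarith
    exact h12
  · intro x _ y _ hxy
    have h7 : A j + Q j * x = A j + Q j * y := hxy
    have h8 : Q j * x = Q j * y := by omega
    exact Nat.eq_of_mul_eq_mul_left (by omega) h8
  · intro x hx
    have h7 : A j + Q j * x ≤ N := hxlt x hx
    show M ≤ A j + Q j * x ∧ A j + Q j * x ≤ 2 * M
    exact ⟨by omega, by omega⟩
  · intro t ht1 ht2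
    refine hk (l j) hl (D j) h6 (A j) (Q j) M t hM1 (by omega) h2 (by omega) ?_ ?_ (fun x hx => (hxlt x hx).trans hNM) ht1 ?_
    · exact (mul_le_mul_of_nonneg_left hMNr hω.le).trans h4
    · rw [mul_comm (l j) m]
      exact hMN.trans h5
    · exact (ht2.trans hT).trans (pow_le_pow_left₀ (by positivity) hNr _)

/-- **The mean value for numbers with restricted digits.** -/
theorem digitOne (b : ℕ) (hb : 2 ≤ b) (m A' : ℕ) (ω : ℝ) (hω : 0 < ω) :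
    ∃ c C : ℝ, 0 < c ∧ 1 ≤ C ∧ ∀ (N : ℕ) (J : Finset ℕ) (l A Q : ℕ → ℕ) (D : ℕ → ℕ → Finset ℕ) (E : Finset ℕ) (T : ℝ), 1 ≤ N →
      Fam b m ω N J l A Q D → ∑ j ∈ J, ((S b (D j) (l j)).card : ℝ) ≤ (N : ℝ) ^ (1 / 2 + c) →
      (E.card : ℝ) ≤ (N : ℝ) ^ (1 / 2 : ℝ) → T ≤ (N : ℝ) ^ A' → ∀ (x : ℝ) (W : Finset ℝ) (a : ℕ → ℂ),
      Sep W → (∀ t ∈ W, x ≤ t ∧ t ≤ x + T) →
      (∀ n ∈ Icc 1 N, a n ≠ 0 → N ≤ 2 * n ∧ (n ∈ E ∨ ∃ j ∈ J, ∃ x ∈ S b (D j) (l j), n = A j + Q j * x)) →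
      ((∀ n, ‖a n‖ ≤ 1) →
        ∑ t ∈ W, ‖∑ n ∈ Icc 1 N, a n * ph t n‖ ^ 2 ≤ C * ((N : ℝ) + W.card) * N) ∧
      (E = ∅ → ∑ t ∈ W, ‖∑ n ∈ Icc 1 N, a n * ph t n‖ ^ 2 ≤
        C * ((N : ℝ) ^ (3 / 2 - c) + W.card * (N : ℝ) ^ (1 / 2 - c)) * ∑ n ∈ Icc 1 N, ‖a n‖ ^ 2) := by
  obtain ⟨μ, δ, C0, hμ, hμ1, hδ, hC0, hs⟩ := sets_of b hb m A' ω hω
  obtain ⟨c, C, hc, hC, h⟩ := onOne μ δ C0 hμ hμ1 hδ hC0
  refine ⟨c, C, hc, hC, ?_⟩
  intro N J l A Q D E T hN hF hS hE hT x W a hW hWT hsup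
  exact h N J (fun j => S b (D j) (l j)) (fun j x => A j + Q j * x) E T hN (hs N J l A Q D T hN hF hT) hS hE x W a hW hWT hsup

end Pool.Agent.U108.DT
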