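import Pool.Agent.R516.MSE

/-!
Mean values over well-spaced sets for coefficients supported on the values of injective functions on finite sets, with
an assumption on the sums of the `n ^ (i t)` (abstract form of `Pool.Agent.U759.PV.Asm`), at all scales up to `M`.
-/

set_option autoImplicit false

namespace Pool.Agent.U108.DT.AS

open Finset
open Pool.Agent.TH705.DL (ph ph_norm Sep)
open Pool.Agent.R327.SI (lg_pow)
open Pool.Agent.R516.MS (KW lsW lift sq_le pow_le)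

/-- `n` is one of the values `f j x`, `j ∈ J`, `x ∈ X j` -/
def Val (J : Finset ℕ) (X : ℕ → Finset ℕ) (f : ℕ → ℕ → ℕ) (n : ℕ) : Prop := ∃ j ∈ J, ∃ x ∈ X j, n = f j x

/-- the pairs `(j, x)` -/
def QQ (J : Finset ℕ) (X : ℕ → Finset ℕ) : Finset ((_ : ℕ) × ℕ) := J.sigma (fun j => X j)

/-- the integer of a pair -/
def nu (f : ℕ → ℕ → ℕ) (x : (_ : ℕ) × ℕ) : ℕ := f x.1 x.2

/-- the integers -/
def PP (J : Finset ℕ) (X : ℕ → Finset ℕ) (f : ℕ → ℕ → ℕ) : Finset ℕ := (QQ J X).image (nu f)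

/-- the multiplicities -/
noncomputable def wt (J : Finset ℕ) (X : ℕ → Finset ℕ) (f : ℕ → ℕ → ℕ) (n : ℕ) : ℝ :=
  (((QQ J X).filter (fun x => nu f x = n)).card : ℝ)

theorem mem_Q {J : Finset ℕ} {X : ℕ → Finset ℕ} {x : (_ : ℕ) × ℕ} (hx : x ∈ QQ J X) : x.1 ∈ J ∧ x.2 ∈ X x.1 := by
  unfold QQ at hx
  rw [mem_sigma] at hx
  exact hx

theorem wt_one {J : Finset ℕ} {X : ℕ → Finset ℕ} {f : ℕ → ℕ → ℕ} {n : ℕ} (hn : n ∈ PP J X f) : 1 ≤ wt J X f n := by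
  unfold PP at hn
  rw [mem_image] at hn
  obtain ⟨x, hx, hxn⟩ := hn
  unfold wt
  have : 0 < ((QQ J X).filter (fun x => nu f x = n)).card := card_pos.2 ⟨x, mem_filter.2 ⟨hx, hxn⟩⟩
  exact_mod_cast this

theorem sum_wt (J : Finset ℕ) (X : ℕ → Finset ℕ) (f : ℕ → ℕ → ℕ) : ∑ n ∈ PP J X f, wt J X f n = (QQ J X).card := by
  unfold PP wt
  rw [card_eq_sum_card_image (nu f) (QQ J X)]
  push_cast
  rfl

theorem kw_eq (J : Finset ℕ) (X : ℕ → Finset ℕ) (f : ℕ → ℕ → ℕ) (t : ℝ) :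
    KW (PP J X f) (wt J X f) t = ∑ j ∈ J, ∑ x ∈ X j, ph t (f j x) := by
  unfold KW
  have h1 : ∑ j ∈ J, ∑ x ∈ X j, ph t (f j x) = ∑ x ∈ QQ J X, ph t (nu f x) := by
    unfold QQ
    rw [sum_sigma]
    rfl
  rw [h1, sum_comp (fun n => ph t n) (nu f)]
  unfold PP wt
  apply sum_congr rfl
  intro n _
  rw [nsmul_eq_mul]
  push_cast
  rfl

/-- the hypotheses on the sets -/
def Sets (M : ℕ) (μ δ C0 T : ℝ) (J : Finset ℕ) (X : ℕ → Finset ℕ) (f : ℕ → ℕ → ℕ) : Prop :=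
  ∀ j ∈ J, (M : ℝ) ^ μ ≤ 2 * (X j).card ∧ Set.InjOn (f j) (X j) ∧
    (∀ x ∈ X j, 1 ≤ f j x ∧ f j x ≤ M) ∧
    ∀ t : ℝ, (M : ℝ) ≤ |t| → |t| ≤ T → ‖∑ x ∈ X j, ph t (f j x)‖ ≤ C0 * (X j).card * (M : ℝ) ^ (-δ)

theorem P_mem {M : ℕ} {μ δ C0 T : ℝ} {J : Finset ℕ} {X : ℕ → Finset ℕ} {f : ℕ → ℕ → ℕ} (h : Sets M μ δ C0 T J X f) {n : ℕ}
    (hn : n ∈ PP J X f) : 1 ≤ n ∧ n ≤ M := by
  unfold PP at hn
  rw [mem_image] at hn
  obtain ⟨x, hx, rfl⟩ := hn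
  have h1 := mem_Q hx
  exact (h _ h1.1).2.2.1 _ h1.2

theorem fibre {M : ℕ} {μ δ C0 T : ℝ} {J : Finset ℕ} {X : ℕ → Finset ℕ} {f : ℕ → ℕ → ℕ}
    (h : Sets M μ δ C0 T J X f) {j : ℕ} (hj : j ∈ J) (n : ℕ) : ((X j).filter (fun x => f j x = n)).card ≤ 1 := by
  classical
  rw [card_le_one]
  intro a ha b hb
  rw [mem_filter] at ha hb
  exact (h j hj).2.1 ha.1 hb.1 (ha.2.trans hb.2.symm)

theorem wt_le {M : ℕ} {μ δ C0 T : ℝ} {J : Finset ℕ} {X : ℕ → Finset ℕ} {f : ℕ → ℕ → ℕ}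
    (h : Sets M μ δ C0 T J X f) (n : ℕ) : wt J X f n ≤ J.card := by
  classical
  unfold wt
  have h1 : (QQ J X).filter (fun x => nu f x = n) = J.sigma (fun j => (X j).filter (fun x => f j x = n)) := by
    ext x
    rw [mem_filter, mem_sigma, mem_filter]
    unfold QQ nu
    rw [mem_sigma]
    tauto
  rw [h1, card_sigma]
  have h2 : ∑ j ∈ J, ((X j).filter (fun x => f j x = n)).card ≤ J.card * 1 := by
    have := sum_le_card_nsmul J (fun j => ((X j).filter (fun x => f j x = n)).card) 1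
      (fun j hj => fibre h hj n)
    simpa using this
  rw [mul_one] at h2
  exact_mod_cast h2

theorem supp {M : ℕ} {μ δ C0 T : ℝ} {J : Finset ℕ} {X : ℕ → Finset ℕ} {f : ℕ → ℕ → ℕ} (h : Sets M μ δ C0 T J X f)
    (F : ℕ → ℂ) (hf : ∀ n ∈ Icc 1 M, F n ≠ 0 → Val J X f n) :
    ∑ n ∈ Icc 1 M, F n = ∑ n ∈ PP J X f, F n := by
  symm
  apply sum_subset
  · intro n hn
    rw [mem_Icc]
    exact P_mem h hn
  · intro n hn hnP
    by_contra hne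
    obtain ⟨j, hj, x, hx, rfl⟩ := hf n hn hne
    apply hnP
    unfold PP
    rw [mem_image]
    refine ⟨⟨j, x⟩, ?_, rfl⟩
    unfold QQ
    rw [mem_sigma]
    exact ⟨hj, hx⟩

/-- **The mean value.** -/
theorem main (μ δ C0 : ℝ) (hμ : 0 < μ) (hμ1 : μ ≤ 1) (hδ : 0 < δ) (hC0 : 1 ≤ C0) :
    ∃ c C : ℝ, 0 < c ∧ c ≤ 1 / 4 ∧ 1 ≤ C ∧ ∀ (M : ℕ) (J : Finset ℕ) (X : ℕ → Finset ℕ) (f : ℕ → ℕ → ℕ) (T : ℝ), 1 ≤ M →
      Sets M μ δ C0 T J X f → ∑ j ∈ J, ((X j).card : ℝ) ≤ 2 * (M : ℝ) ^ (1 / 2 + c) →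
      ∀ (x : ℝ) (W : Finset ℝ) (b : ℕ → ℂ), Sep W →
      (∀ t ∈ W, x ≤ t ∧ t ≤ x + T) → (∀ n ∈ Icc 1 M, b n ≠ 0 → Val J X f n) →
      (∑ t ∈ W, ‖∑ n ∈ Icc 1 M, b n * ph t n‖ ^ 2 ≤
        C * ((M : ℝ) ^ (3 / 2 - c) + W.card * (M : ℝ) ^ (1 / 2 - c)) * ∑ n ∈ Icc 1 M, ‖b n‖ ^ 2) ∧
      ((∀ n, ‖b n‖ ≤ 1) → ∑ t ∈ W, ‖∑ n ∈ Icc 1 M, b n * ph t n‖ ^ 2 ≤
        C * ((M : ℝ) + W.card) * M) := by
  obtain ⟨C2, hC2, hlg⟩ := lg_pow 2 (μ / 8) (by norm_num) (by positivity)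
  set c : ℝ := min (δ / 2) (μ / 16) with hc
  have hc0 : 0 < c := by rw [hc]; positivity
  have hc1 : c ≤ δ / 2 := min_le_left _ _
  have hc2 : c ≤ μ / 16 := min_le_right _ _
  set C : ℝ := 2 * (40 * C2 + 2 * C0) with hC
  have hC1 : 1 ≤ C := by
    have : 0 ≤ 40 * C2 := by positivity
    linarith
  refine ⟨c, C, hc0, by linarith, hC1, ?_⟩
  intro M J X f T hM hAdm hSm x W b hW hWT hs
  have hM1 : (1 : ℝ) ≤ M := by exact_mod_cast hM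
  have hM0 : (0 : ℝ) < M := by linarith
  -- the number of the pairs
  have hQe : ((QQ J X).card : ℝ) = ∑ j ∈ J, ((X j).card : ℝ) := by
    unfold QQ
    rw [card_sigma]
    push_cast
    simp
  have hQ : ((QQ J X).card : ℝ) ≤ 2 * (M : ℝ) ^ (1 / 2 + c) := by rw [hQe]; exact hSm
  -- the number of the sets
  have hBc : (J.card : ℝ) ≤ 4 * (M : ℝ) ^ (1 / 2 + c - μ) := by
    have h2 : J.card * ((M : ℝ) ^ μ / 2) ≤ 2 * (M : ℝ) ^ (1 / 2 + c) := by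
      calc J.card * ((M : ℝ) ^ μ / 2) = ∑ j ∈ J, (M : ℝ) ^ μ / 2 := by
            rw [sum_const, nsmul_eq_mul]
        _ ≤ ∑ j ∈ J, ((X j).card : ℝ) := sum_le_sum fun j hj => by linarith [(hAdm j hj).1]
        _ ≤ _ := hSm
    have h3 : (M : ℝ) ^ (1 / 2 + c - μ) = (M : ℝ) ^ (1 / 2 + c) / (M : ℝ) ^ μ :=
      Real.rpow_sub hM0 _ _
    have h4 : 0 < (M : ℝ) ^ μ := by positivity
    rw [h3, mul_div_assoc', le_div_iff₀ h4]
    linarith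
  have hw2 : ∑ n ∈ PP J X f, wt J X f n ^ 2 ≤ 8 * (M : ℝ) ^ (1 + 2 * c - μ) := by
    calc ∑ n ∈ PP J X f, wt J X f n ^ 2 ≤ ∑ n ∈ PP J X f, (J.card) * wt J X f n := by
          apply sum_le_sum
          intro n hn
          rw [pow_two]
          exact mul_le_mul_of_nonneg_right (wt_le hAdm n) (by linarith [wt_one hn])
      _ = (J.card) * (QQ J X).card := by rw [← mul_sum, sum_wt]
      _ ≤ ((4 * (M : ℝ) ^ (1 / 2 + c - μ))) * (2 * (M : ℝ) ^ (1 / 2 + c)) := by gcongr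
      _ = 8 * ((M : ℝ) ^ (1 / 2 + c - μ) * (M : ℝ) ^ (1 / 2 + c)) := by ring
      _ = _ := by
          rw [← Real.rpow_add hM0]
          congr 2; ring
  have hsq : Real.sqrt (∑ n ∈ PP J X f, wt J X f n ^ 2) ≤ 4 * (M : ℝ) ^ (1 / 2 + c - μ / 2) := by
    rw [Real.sqrt_le_left (by positivity)]
    refine hw2.trans ?_
    rw [mul_pow, ← Real.rpow_natCast ((M : ℝ) ^ (1 / 2 + c - μ / 2)) 2, ← Real.rpow_mul hM0.le]
    have e1 : (1 / 2 + c - μ / 2) * ((2 : ℕ) : ℝ) = 1 + 2 * c - μ := by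
      push_cast; ring
    rw [e1]
    apply mul_le_mul_of_nonneg_right _ (by positivity)
    nlinarith
  have hKW : ∀ t : ℝ, (M : ℝ) < |t| → |t| ≤ T → ‖KW (PP J X f) (wt J X f) t‖ ≤
      2 * C0 * (M : ℝ) ^ (1 / 2 - c) := by
    intro t h1 h2
    rw [kw_eq]
    calc ‖∑ j ∈ J, ∑ x ∈ X j, ph t (f j x)‖
        ≤ ∑ j ∈ J, ‖∑ x ∈ X j, ph t (f j x)‖ := norm_sum_le _ _
      _ ≤ ∑ j ∈ J, C0 * ((X j).card) * (M : ℝ) ^ (-δ) := by
          apply sum_le_sum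
          intro j hj
          exact (hAdm j hj).2.2.2 t h1.le h2
      _ = C0 * (M : ℝ) ^ (-δ) * ∑ j ∈ J, ((X j).card : ℝ) := by
          rw [mul_sum]
          apply sum_congr rfl
          intro p _
          ring
      _ ≤ C0 * (M : ℝ) ^ (-δ) * (2 * (M : ℝ) ^ (1 / 2 + c)) := by gcongr
      _ = 2 * C0 * ((M : ℝ) ^ (-δ) * (M : ℝ) ^ (1 / 2 + c)) := by ring
      _ ≤ 2 * C0 * (M : ℝ) ^ (1 / 2 - c) := by
          rw [← Real.rpow_add hM0]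
          have : (M : ℝ) ^ (-δ + (1 / 2 + c)) ≤ (M : ℝ) ^ (1 / 2 - c) :=
            Real.rpow_le_rpow_of_exponent_le hM1 (by linarith)
          gcongr
  have hls := lsW M hM (PP J X f) (wt J X f) (fun n hn => wt_one hn)
    (fun n hn => ⟨(P_mem hAdm hn).1, by have := (P_mem hAdm hn).2; omega⟩) W hW x T M (2 * C0 * (M : ℝ) ^ (1 / 2 - c)) hWT
    le_rfl (by positivity) hKW b
  have hsum1 : ∀ t, ∑ n ∈ Icc 1 M, b n * ph t n = ∑ n ∈ PP J X f, b n * ph t n := by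
    intro t
    apply supp hAdm
    intro n hn hne
    exact hs n hn (left_ne_zero_of_mul hne)
  have hlg2 : (1 + Real.log (2 * M)) ^ 2 ≤ C2 * (M : ℝ) ^ (μ / 8) := by
    have := hlg M hM
    rwa [Real.rpow_two] at this
  have hlog0 : 0 ≤ Real.log (2 * (M : ℝ)) := Real.log_nonneg (by linarith)
  have hfirst : 10 * (M : ℝ) * (1 + Real.log (2 * M)) ^ 2 * Real.sqrt (∑ n ∈ PP J X f, wt J X f n ^ 2) ≤
      40 * C2 * (M : ℝ) ^ (3 / 2 - c) := by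
    calc 10 * (M : ℝ) * (1 + Real.log (2 * M)) ^ 2 * Real.sqrt (∑ n ∈ PP J X f, wt J X f n ^ 2)
        ≤ 10 * (M : ℝ) * (C2 * (M : ℝ) ^ (μ / 8)) * (4 * (M : ℝ) ^ (1 / 2 + c - μ / 2)) := by
          gcongr
      _ = 40 * C2 * ((M : ℝ) ^ (1 : ℝ) * (M : ℝ) ^ (μ / 8) * (M : ℝ) ^ (1 / 2 + c - μ / 2)) := by
          rw [Real.rpow_one]; ring
      _ = 40 * C2 * (M : ℝ) ^ (1 + μ / 8 + (1 / 2 + c - μ / 2)) := by
          rw [← Real.rpow_add hM0, ← Real.rpow_add hM0]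
      _ ≤ 40 * C2 * (M : ℝ) ^ (3 / 2 - c) := by
          have h1 : 1 + μ / 8 + (1 / 2 + c - μ / 2) ≤ 3 / 2 - c := by linarith
          have := Real.rpow_le_rpow_of_exponent_le hM1 h1
          gcongr
  have hnorm2 : ∑ n ∈ PP J X f, ‖b n‖ ^ 2 ≤ ∑ n ∈ Icc 1 M, ‖b n‖ ^ 2 := by
    apply sum_le_sum_of_subset_of_nonneg
    · intro n hn
      rw [mem_Icc]
      exact P_mem hAdm hn
    · intro _ _ _
      positivity
  have hbase : ∑ t ∈ W, ‖∑ n ∈ Icc 1 M, b n * ph t n‖ ^ 2 ≤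
      (40 * C2 + 2 * C0) * ((M : ℝ) ^ (3 / 2 - c) + W.card * (M : ℝ) ^ (1 / 2 - c)) *
        ∑ n ∈ PP J X f, ‖b n‖ ^ 2 := by
    simp only [hsum1]
    refine hls.trans ?_
    apply mul_le_mul_of_nonneg_right _ (sum_nonneg fun _ _ => by positivity)
    have h1 : 0 ≤ (M : ℝ) ^ (3 / 2 - c) := by positivity
    have h2 : 0 ≤ W.card * (M : ℝ) ^ (1 / 2 - c) := by positivity
    have h3 : 0 ≤ 40 * C2 := by positivity
    have h4 : 0 ≤ 2 * C0 := by positivity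
    have e1 : (40 * C2 + 2 * C0) * ((M : ℝ) ^ (3 / 2 - c) + W.card * (M : ℝ) ^ (1 / 2 - c)) =
        40 * C2 * (M : ℝ) ^ (3 / 2 - c) + 2 * C0 * (W.card * (M : ℝ) ^ (1 / 2 - c)) +
          (40 * C2 * (W.card * (M : ℝ) ^ (1 / 2 - c)) + 2 * C0 * (M : ℝ) ^ (3 / 2 - c)) := by ring
    rw [e1]
    have h5 : 0 ≤ 40 * C2 * (W.card * (M : ℝ) ^ (1 / 2 - c)) := mul_nonneg h3 h2
    have h6 : 0 ≤ 2 * C0 * (M : ℝ) ^ (3 / 2 - c) := mul_nonneg h4 h1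
    have e2 : (W.card : ℝ) * (2 * C0 * (M : ℝ) ^ (1 / 2 - c)) = 2 * C0 * (W.card * (M : ℝ) ^ (1 / 2 - c)) := by ring
    rw [e2]
    linarith
  constructor
  · refine hbase.trans ?_
    have h1 : 0 ≤ (M : ℝ) ^ (3 / 2 - c) + W.card * (M : ℝ) ^ (1 / 2 - c) := by positivity
    have h2 : (40 * C2 + 2 * C0) ≤ C := by
      have : 0 ≤ 40 * C2 := by positivity
      rw [hC]; linarith
    have h3 : 0 ≤ ∑ n ∈ PP J X f, ‖b n‖ ^ 2 := sum_nonneg fun _ _ => by positivity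
    have h4 : 0 ≤ C := by linarith
    exact mul_le_mul (mul_le_mul_of_nonneg_right h2 h1) hnorm2 h3 (mul_nonneg h4 h1)
  · intro hb
    have hP : ((PP J X f).card : ℝ) ≤ 2 * (M : ℝ) ^ (1 / 2 + c) := by
      refine le_trans ?_ hQ
      exact_mod_cast card_image_le
    have h1 : ∑ n ∈ PP J X f, ‖b n‖ ^ 2 ≤ 2 * (M : ℝ) ^ (1 / 2 + c) := by
      calc ∑ n ∈ PP J X f, ‖b n‖ ^ 2 ≤ ∑ n ∈ PP J X f, (1 : ℝ) := by
            apply sum_le_sum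
            intro n _
            exact pow_le_one₀ (norm_nonneg _) (hb n)
        _ = (PP J X f).card := by simp
        _ ≤ _ := hP
    have h5 : 0 ≤ 40 * C2 + 2 * C0 := by positivity
    calc _ ≤ _ := hbase
      _ ≤ (40 * C2 + 2 * C0) * ((M : ℝ) ^ (3 / 2 - c) + W.card * (M : ℝ) ^ (1 / 2 - c)) *
          (2 * (M : ℝ) ^ (1 / 2 + c)) := by
            apply mul_le_mul_of_nonneg_left h1
            have : 0 ≤ (M : ℝ) ^ (3 / 2 - c) + W.card * (M : ℝ) ^ (1 / 2 - c) := by positivity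
            exact mul_nonneg h5 this
      _ = C * ((M : ℝ) ^ (3 / 2 - c) * (M : ℝ) ^ (1 / 2 + c) +
          W.card * ((M : ℝ) ^ (1 / 2 - c) * (M : ℝ) ^ (1 / 2 + c))) := by rw [hC]; ring
      _ = C * ((M : ℝ) + W.card) * M := by
          rw [← Real.rpow_add hM0, ← Real.rpow_add hM0]
          rw [show (3 / 2 - c + (1 / 2 + c) : ℝ) = 2 by ring, show (1 / 2 - c + (1 / 2 + c) : ℝ) = 1 by ring,
            Real.rpow_one, Real.rpow_two]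
          ring

/-- the mean value with up to `(2M)^(1/2)` further integers in the support -/
theorem mainE (μ δ C0 : ℝ) (hμ : 0 < μ) (hμ1 : μ ≤ 1) (hδ : 0 < δ) (hC0 : 1 ≤ C0) :
    ∃ c C : ℝ, 0 < c ∧ c ≤ 1 / 4 ∧ 1 ≤ C ∧ ∀ (M : ℕ) (J : Finset ℕ) (X : ℕ → Finset ℕ) (f : ℕ → ℕ → ℕ) (E : Finset ℕ) (T : ℝ),
      1 ≤ M → Sets M μ δ C0 T J X f → ∑ j ∈ J, ((X j).card : ℝ) ≤ 2 * (M : ℝ) ^ (1 / 2 + c) → (E.card : ℝ) ^ 2 ≤ 2 * M →
      ∀ (x : ℝ) (W : Finset ℝ) (b : ℕ → ℂ),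
      Sep W → (∀ t ∈ W, x ≤ t ∧ t ≤ x + T) →
      (∀ n ∈ Icc 1 M, b n ≠ 0 → n ∈ E ∨ Val J X f n) → (∀ n, ‖b n‖ ≤ 1) →
      ∑ t ∈ W, ‖∑ n ∈ Icc 1 M, b n * ph t n‖ ^ 2 ≤ C * ((M : ℝ) + W.card) * M := by
  classical
  obtain ⟨c, C, hc0, hc1, hC, h⟩ := main μ δ C0 hμ hμ1 hδ hC0
  refine ⟨c, 2 * C + 4, hc0, hc1, by linarith, ?_⟩
  intro M J X f E T hM hB hSm hE x W b hW hWT hs hb
  have hM1 : (1 : ℝ) ≤ M := by exact_mod_cast hM
  set b1 : ℕ → ℂ := fun n => if n ∈ E then 0 else b n with hb1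
  set b2 : ℕ → ℂ := fun n => if n ∈ E then b n else 0 with hb2
  have hb12 : ∀ n, b n = b1 n + b2 n := by
    intro n
    simp only [hb1, hb2]
    split_ifs <;> simp
  have hbn1 : ∀ n, ‖b1 n‖ ≤ 1 := by
    intro n
    simp only [hb1]
    split_ifs
    · simp
    · exact hb n
  have h1 := (h M J X f T hM hB hSm x W b1 hW hWT (by
    intro n hn hne
    simp only [hb1] at hne
    split_ifs at hne with hnE
    · exact absurd rfl hne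
    · rcases hs n hn hne with h1 | h1
      · exact absurd h1 hnE
      · exact h1)).2 hbn1
  have h2 : ∀ t : ℝ, ‖∑ n ∈ Icc 1 M, b2 n * ph t n‖ ^ 2 ≤ 2 * M := by
    intro t
    have h3 : ‖∑ n ∈ Icc 1 M, b2 n * ph t n‖ ≤ E.card := by
      calc ‖∑ n ∈ Icc 1 M, b2 n * ph t n‖ ≤ ∑ n ∈ Icc 1 M, ‖b2 n * ph t n‖ := norm_sum_le _ _
        _ ≤ ∑ n ∈ Icc 1 M, (if n ∈ E then (1 : ℝ) else 0) := by
            apply sum_le_sum
            intro n _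
            rw [norm_mul, ph_norm, mul_one]
            simp only [hb2]
            split_ifs
            · exact hb n
            · simp
        _ = (((Icc 1 M).filter (fun n => n ∈ E)).card : ℝ) := by
            rw [← sum_filter]; simp
        _ ≤ E.card := by
            have : (Icc 1 M).filter (fun n => n ∈ E) ⊆ E := fun n hn => (mem_filter.1 hn).2
            exact_mod_cast card_le_card this
    exact (pow_le_pow_left₀ (norm_nonneg _) h3 2).trans hE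
  have h3 : ∀ t : ℝ, ‖∑ n ∈ Icc 1 M, b n * ph t n‖ ^ 2 ≤
      2 * ‖∑ n ∈ Icc 1 M, b1 n * ph t n‖ ^ 2 + 2 * (2 * M) := by
    intro t
    have e : ∑ n ∈ Icc 1 M, b n * ph t n =
        ∑ n ∈ Icc 1 M, b1 n * ph t n + ∑ n ∈ Icc 1 M, b2 n * ph t n := by
      rw [← sum_add_distrib]
      apply sum_congr rfl
      intro n _
      rw [hb12 n]; ring
    rw [e]
    have h4 := norm_add_le (∑ n ∈ Icc 1 M, b1 n * ph t n) (∑ n ∈ Icc 1 M, b2 n * ph t n)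
    have h5 := h2 t
    set u := ‖∑ n ∈ Icc 1 M, b1 n * ph t n‖ with hu
    set v := ‖∑ n ∈ Icc 1 M, b2 n * ph t n‖ with hv
    have hu0 : 0 ≤ u := norm_nonneg _
    have hv0 : 0 ≤ v := norm_nonneg _
    have h6 : ‖∑ n ∈ Icc 1 M, b1 n * ph t n + ∑ n ∈ Icc 1 M, b2 n * ph t n‖ ^ 2 ≤ (u + v) ^ 2 :=
      pow_le_pow_left₀ (norm_nonneg _) h4 2
    nlinarith [sq_nonneg (u - v)]
  have h4 : ∑ t ∈ W, ‖∑ n ∈ Icc 1 M, b n * ph t n‖ ^ 2
      ≤ ∑ t ∈ W, (2 * ‖∑ n ∈ Icc 1 M, b1 n * ph t n‖ ^ 2 + 2 * (2 * M)) :=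
        sum_le_sum fun t _ => h3 t
  have h5 : ∑ t ∈ W, (2 * ‖∑ n ∈ Icc 1 M, b1 n * ph t n‖ ^ 2 + 2 * (2 * (M : ℝ))) =
      2 * ∑ t ∈ W, ‖∑ n ∈ Icc 1 M, b1 n * ph t n‖ ^ 2 + W.card * (2 * (2 * M)) := by
    have e1 : ∀ (r : ℝ) (G : ℝ → ℝ), ∑ t ∈ W, (2 * G t + r) = 2 * ∑ t ∈ W, G t + W.card * r := by
      intro r G
      rw [sum_add_distrib, ← mul_sum, sum_const, nsmul_eq_mul]
    exact e1 _ (fun t => ‖∑ n ∈ Icc 1 M, b1 n * ph t n‖ ^ 2)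
  rw [h5] at h4
  refine h4.trans ?_
  clear h4 h5
  have h6 : 0 ≤ (M : ℝ) * M := by positivity
  have h7 : 0 ≤ (W.card : ℝ) * M := mul_nonneg (Nat.cast_nonneg _) (Nat.cast_nonneg _)
  have h8 : (2 * C + 4) * ((M : ℝ) + W.card) * M =
      2 * (C * ((M : ℝ) + W.card) * M) + W.card * (2 * (2 * M)) + 4 * (M * M) := by ring
  rw [h8]
  linarith

end Pool.Agent.U108.DT.AS
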