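import Pool.Agent.U108.DT.G
import Pool.Agent.U108.DT.H

set_option autoImplicit false

/-! Mean values of Dirichlet polynomials supported on numbers with restricted digits, at all scales. -/

namespace Pool.Agent.U108.DT.AS

open Finset
open Pool.Agent.U108.DT (kernel_ph two_le_S)
open Pool.Agent.TH705.DL (ph ph_norm Sep)
open Pool.Agent.TH872.GQ (S)

/-- For `j ∈ J`: `Q_j ≥ 1`, `ω A_j ≤ Q_j b ^ (l_j) ≤ A_j`, `b ^ (m l_j) ≥ N`, the sets `D j i`, `i < l_j`, are sets of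
at least two digits in base `b`, and `A_j + Q_j x ≤ N` for all `x < b ^ (l_j)` with `i`-th digit in `D j i`. -/
def Fam (b m : ℕ) (ω : ℝ) (N : ℕ) (J : Finset ℕ) (l A Q : ℕ → ℕ) (D : ℕ → ℕ → Finset ℕ) : Prop :=
  ∀ j ∈ J, 1 ≤ Q j ∧ Q j * b ^ l j ≤ A j ∧ ω * A j ≤ Q j * (b : ℝ) ^ l j ∧ N ≤ b ^ (m * l j) ∧
    (∀ i < l j, D j i ⊆ range b ∧ 2 ≤ (D j i).card) ∧ ∀ x ∈ S b (D j) (l j), A j + Q j * x ≤ N

theorem sets_of (b : ℕ) (hb : 2 ≤ b) (m A' : ℕ) (ω : ℝ) (hω : 0 < ω) : ∃ μ δ C : ℝ, 0 < μ ∧ μ ≤ 1 ∧ 0 < δ ∧ 1 ≤ C ∧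
    ∀ (N : ℕ) (J : Finset ℕ) (l A Q : ℕ → ℕ) (D : ℕ → ℕ → Finset ℕ) (T : ℝ), 2 ≤ N → Fam b m ω N J l A Q D →
    T ≤ (N : ℝ) ^ A' → Sets N μ δ C T J (fun j => S b (D j) (l j)) (fun j x => A j + Q j * x) := by
  obtain ⟨δ, C, hδ, hC, hk⟩ := kernel_ph b hb m (m * A') ω hω
  have hbm : 0 < b * (m + 1) := by positivity
  have hbmr : (1 : ℝ) ≤ (b * (m + 1) : ℕ) := by exact_mod_cast hbm
  refine ⟨1 / (b * (m + 1) : ℕ), δ / (m + 1 : ℕ), C, by positivity, (div_le_one (by linarith)).2 hbmr, by positivity, hC, ?_⟩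
  intro N J l A Q D T hN hF hT j hj
  obtain ⟨h2, h1, h4, h5, h6, h3⟩ := hF j hj
  have hN1 : (1 : ℝ) ≤ N := by exact_mod_cast (by omega : 1 ≤ N)
  have hb0 : 0 < b ^ l j := by positivity
  have hQb : b ^ l j ≤ Q j * b ^ l j := Nat.le_mul_of_pos_left _ (by omega)
  have hA1 : 1 ≤ A j := by omega
  have hA1r : (1 : ℝ) ≤ A j := by exact_mod_cast hA1
  have hl : 0 < l j := by
    rcases Nat.eq_zero_or_pos (l j) with h | h
    · rw [h, mul_zero, pow_zero] at h5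
      omega
    · exact h
  have hne : (S b (D j) (l j)).Nonempty := by
    rw [← card_pos]
    have := two_le_S b (l j) hb (D j) h6
    have h7 : 0 < 2 ^ l j := by positivity
    omega
  have hAN : A j ≤ N := by
    obtain ⟨x, hx⟩ := hne
    have := h3 x hx
    omega
  have hNA : N ≤ A j ^ m := by
    calc N ≤ b ^ (m * l j) := h5
      _ = (b ^ l j) ^ m := by rw [mul_comm, pow_mul]
      _ ≤ _ := Nat.pow_le_pow_left (hQb.trans h1) _
  have hNAr : (N : ℝ) ≤ (A j : ℝ) ^ m := by exact_mod_cast hNA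
  have hxle : ∀ x ∈ S b (D j) (l j), A j + Q j * x ≤ 2 * A j := by
    intro x hx
    unfold S at hx
    rw [mem_filter, mem_range] at hx
    have : Q j * x ≤ Q j * b ^ l j := Nat.mul_le_mul_left _ hx.1.le
    omega
  refine ⟨?_, ?_, ?_, ?_⟩
  · have h7 : (2 : ℝ) ^ l j ≤ (S b (D j) (l j)).card := by exact_mod_cast two_le_S b (l j) hb (D j) h6
    have h8 : (N : ℝ) ≤ (2 : ℝ) ^ (l j * (b * (m + 1))) := by
      have h9 : N ≤ 2 ^ (l j * (b * (m + 1))) := by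
        calc N ≤ b ^ (m * l j) := h5
          _ ≤ (2 ^ b) ^ (m * l j) := Nat.pow_le_pow_left (Nat.lt_two_pow_self).le _
          _ = 2 ^ (b * (m * l j)) := by rw [← pow_mul]
          _ ≤ _ := Nat.pow_le_pow_right (by norm_num) (by nlinarith [Nat.zero_le (b * l j)])
      exact_mod_cast h9
    have h10 : (N : ℝ) ^ (1 / ((b * (m + 1) : ℕ) : ℝ)) ≤ (2 : ℝ) ^ l j := by
      calc (N : ℝ) ^ (1 / ((b * (m + 1) : ℕ) : ℝ)) ≤ ((2 : ℝ) ^ (l j * (b * (m + 1)))) ^ (1 / ((b * (m + 1) : ℕ) : ℝ)) :=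
            Real.rpow_le_rpow (by linarith) h8 (by positivity)
        _ = (2 : ℝ) ^ l j := by
            rw [pow_mul, one_div]
            exact Real.pow_rpow_inv_natCast (by positivity) hbm.ne'
    have h11 : (0 : ℝ) ≤ (2 : ℝ) ^ l j := by positivity
    have h12 : (N : ℝ) ^ (1 / ((b * (m + 1) : ℕ) : ℝ)) ≤ 2 * ((S b (D j) (l j)).card : ℝ) := by linarith
    exact h12
  · intro x _ y _ hxy
    have h7 : A j + Q j * x = A j + Q j * y := hxy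
    have h8 : Q j * x = Q j * y := by omega
    exact Nat.eq_of_mul_eq_mul_left (by omega) h8
  · intro x hx
    have h7 := h3 x hx
    show 1 ≤ A j + Q j * x ∧ A j + Q j * x ≤ N
    exact ⟨by omega, h7⟩
  · intro t ht1 ht2
    have hANr : (A j : ℝ) ≤ N := by exact_mod_cast hAN
    have h7 := hk (l j) hl (D j) h6 (A j) (Q j) (A j) t hA1 le_rfl h2 h1 h4 (by rw [mul_comm (l j) m]; exact hAN.trans h5)
      hxle (hANr.trans ht1) (by
        calc |t| ≤ (N : ℝ) ^ A' := ht2.trans hT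
          _ ≤ ((A j : ℝ) ^ m) ^ A' := pow_le_pow_left₀ (by linarith) hNAr _
          _ = (A j : ℝ) ^ (m * A') := by rw [pow_mul]
          _ ≤ _ := pow_le_pow_left₀ (by linarith) (by linarith) _)
    refine h7.trans ?_
    have h8 : (A j : ℝ) ^ (-δ) ≤ (N : ℝ) ^ (-(δ / (m + 1 : ℕ))) := by
      rw [Real.rpow_neg (by linarith), Real.rpow_neg (by linarith)]
      apply inv_anti₀ (by positivity)
      have h9 : (N : ℝ) ≤ (A j : ℝ) ^ (m + 1) := hNAr.trans (pow_le_pow_right₀ hA1r (by omega))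
      calc (N : ℝ) ^ (δ / (m + 1 : ℕ)) ≤ ((A j : ℝ) ^ (m + 1)) ^ (δ / (m + 1 : ℕ)) :=
            Real.rpow_le_rpow (by linarith) h9 (by positivity)
        _ = (A j : ℝ) ^ δ := by
            rw [← Real.rpow_natCast, ← Real.rpow_mul (by linarith)]
            congr 1
            field_simp
    exact mul_le_mul_of_nonneg_left h8 (by positivity)

/-- **The mean value for numbers with restricted digits, at all scales.** -/
theorem digitN (b : ℕ) (hb : 2 ≤ b) (m A' : ℕ) (ω : ℝ) (hω : 0 < ω) :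
    ∃ c C : ℝ, 0 < c ∧ 1 ≤ C ∧ ∀ (N : ℕ) (J : Finset ℕ) (l A Q : ℕ → ℕ) (D : ℕ → ℕ → Finset ℕ) (E : Finset ℕ) (T : ℝ), 2 ≤ N →
      Fam b m ω N J l A Q D → ∑ j ∈ J, ((S b (D j) (l j)).card : ℝ) ≤ (N : ℝ) ^ (1 / 2 + c) →
      (E.card : ℝ) ≤ (N : ℝ) ^ (1 / 2 : ℝ) → T ≤ (N : ℝ) ^ A' → ∀ (x : ℝ) (W : Finset ℝ) (a : ℕ → ℂ),
      Sep W → (∀ t ∈ W, x ≤ t ∧ t ≤ x + T) →
      (∀ n ∈ Icc 1 N, a n ≠ 0 → n ∈ E ∨ ∃ j ∈ J, ∃ x ∈ S b (D j) (l j), n = A j + Q j * x) →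
      ((∀ n, ‖a n‖ ≤ 1) →
        ∑ t ∈ W, ‖∑ n ∈ Icc 1 N, a n * ph t n‖ ^ 2 ≤ C * ((N : ℝ) + W.card) * N) ∧
      (E = ∅ → ∑ t ∈ W, ‖∑ n ∈ Icc 1 N, a n * ph t n‖ ^ 2 ≤
        C * ((N : ℝ) ^ (3 / 2 - c) + W.card * (N : ℝ) ^ (1 / 2 - c)) * ∑ n ∈ Icc 1 N, ‖a n‖ ^ 2) := by
  obtain ⟨μ, δ, C0, hμ, hμ1, hδ, hC0, hs⟩ := sets_of b hb m A' ω hω
  obtain ⟨c1, C1, hc1, hc1', hC1, h1⟩ := main μ δ C0 hμ hμ1 hδ hC0
  obtain ⟨c2, C2, hc2, hc2', hC2, h2⟩ := mainE μ δ C0 hμ hμ1 hδ hC0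
  refine ⟨min c1 c2, max C1 C2, lt_min hc1 hc2, le_max_of_le_left hC1, ?_⟩
  intro N J l A Q D E T hN hF hS hE hT x W a hW hWT hsup
  obtain ⟨c, hc⟩ : ∃ c, c = min c1 c2 := ⟨_, rfl⟩
  rw [← hc] at hS ⊢
  have hcc1 : c ≤ c1 := by rw [hc]; exact min_le_left _ _
  have hcc2 : c ≤ c2 := by rw [hc]; exact min_le_right _ _
  have hN1 : 1 ≤ N := by omega
  have hNr : (1 : ℝ) ≤ N := by exact_mod_cast hN1
  have hsets := hs N J l A Q D T hN hF hT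
  have hSm : ∀ c' : ℝ, c ≤ c' → ∑ j ∈ J, ((S b (D j) (l j)).card : ℝ) ≤ 2 * (N : ℝ) ^ (1 / 2 + c') := by
    intro c' hc'
    have h3 := Real.rpow_le_rpow_of_exponent_le hNr (show 1 / 2 + c ≤ 1 / 2 + c' by linarith)
    have h4 : (0 : ℝ) ≤ (N : ℝ) ^ (1 / 2 + c') := by positivity
    linarith
  constructor
  · intro ha
    have h3 := h2 N J (fun j => S b (D j) (l j)) (fun j x => A j + Q j * x) E T hN1 hsets (hSm c2 hcc2) (by
      have h4 := pow_le_pow_left₀ (Nat.cast_nonneg _) hE 2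
      have h5 : ((N : ℝ) ^ (1 / 2 : ℝ)) ^ 2 = N := by
        rw [← Real.rpow_natCast, ← Real.rpow_mul (Nat.cast_nonneg _)]
        norm_num
      linarith) x W a hW hWT hsup ha
    refine h3.trans ?_
    have h5 : C2 ≤ max C1 C2 := le_max_right _ _
    have h6 : 0 ≤ C2 := by linarith
    gcongr
  · intro hEe
    have h3 := (h1 N J (fun j => S b (D j) (l j)) (fun j x => A j + Q j * x) T hN1 hsets (hSm c1 hcc1) x W a hW hWT (by
      intro n hn hne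
      rcases hsup n hn hne with h6 | h6
      · rw [hEe] at h6
        exact absurd h6 (notMem_empty n)
      · exact h6)).1
    refine h3.trans ?_
    have h5 : C1 ≤ max C1 C2 := le_max_left _ _
    have h6 : 0 ≤ C1 := by linarith
    have h8 : (N : ℝ) ^ (3 / 2 - c1) ≤ (N : ℝ) ^ (3 / 2 - c) := Real.rpow_le_rpow_of_exponent_le hNr (by linarith)
    have h9 : (N : ℝ) ^ (1 / 2 - c1) ≤ (N : ℝ) ^ (1 / 2 - c) := Real.rpow_le_rpow_of_exponent_le hNr (by linarith)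
    have h10 : 0 ≤ ∑ n ∈ Icc 1 N, ‖a n‖ ^ 2 := sum_nonneg fun _ _ => by positivity
    gcongr

end Pool.Agent.U108.DT.AS
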